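import Pool.Agent.W25.IT.Rat

/-!
# Iterated equations in every long window, and chains of primes
-/

set_option autoImplicit false

namespace Pool.Agent.W25.IT.Rat

open Finset Filter Pool.Agent.H732R3.BigQ Pool.Agent.W59.GB Pool.Agent.H947R3.GM Pool.Agent.W25.IT

/-- the set of good exponents -/
def GoodEqExp (a b c : ℤ) : Set ℕ := {j | GoodEq a b c j}

/-- five classes of exponents, admissible at the primes not dividing `N` -/
theorem five_rat (a b c : ℤ) (ha : 1 ≤ a) (hb : 1 ≤ b) (hc : c ≠ 0) (hab : IsCoprime a b)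
    (hac : IsCoprime a c) (hbc : IsCoprime b c) (hpar : ¬ (Odd a ∧ Odd b ∧ Odd c))
    (N : ℕ) (hN : ∀ p : ℕ, p.Prime → p ∣ N → (p : ℤ) ∣ a - b → (p : ℤ) ∣ c) :
    ∃ K : ℕ, 1 ≤ K ∧ ∀ H : Fin 5 → Fin K → ℕ, AdmN N H →
      ∃ g g' i i', g ≠ g' ∧ H g i < H g' i' ∧ H g' i' - H g i ∈ GoodEqExp a b c := by
  classical
  obtain ⟨K, hK, hQ⟩ := quarterB 5
  refine ⟨K, hK, ?_⟩
  rintro H ⟨hinj, hadm⟩
  obtain ⟨J, hJ⟩ : ∃ J : ℕ, ∀ x : Fin 5 × Fin K, H x.1 x.2 + 1 < J :=
    ⟨(univ.sup fun x : Fin 5 × Fin K => H x.1 x.2) + 2, fun x => by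
      have := le_sup (f := fun x : Fin 5 × Fin K => H x.1 x.2) (mem_univ x)
      omega⟩
  obtain ⟨β, hβ⟩ := exists_beta a b c (by omega) hab J
  have hHJ : ∀ x : Fin 5 × Fin K, 1 ≤ H x.1 x.2 + 1 ∧ H x.1 x.2 + 1 < J :=
    fun x => ⟨by omega, hJ x⟩
  obtain ⟨S, t, hS, hBig⟩ := hQ (fun g i => a ^ (J - (H g i + 1)) * b ^ (H g i + 1))
    (fun g i => β (H g i + 1))
    (fun g i => by positivity)
    (by
      rintro x y h
      simp only [Prod.mk.injEq] at h
      have h1 := forms_inj ha hb hc hab hβ (hHJ x).2.le (hHJ y).2.le h.1 h.2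
      exact hinj (show H x.1 x.2 = H y.1 y.2 by omega))
    (by
      intro p hp
      obtain ⟨n, hn⟩ := rat_admissible hab hac hbc hpar hβ (fun x : Fin 5 × Fin K => H x.1 x.2 + 1)
        hHJ hp (by
        intro _ hp1 hpc
        obtain ⟨n, hn⟩ := hadm p hp (fun hpN => hpc (hN p hp hpN hp1))
        have hp0 : (0 : ℤ) < p := by exact_mod_cast hp.pos
        refine rat_miss hβ (fun x : Fin 5 × Fin K => H x.1 x.2 + 1) (fun x => (hHJ x).2.le) hp
          (bad_not_dvd hab hp hp1).1 hp1 hpc (((-n) % p).toNat + 1) ?_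
        rintro ⟨g, i⟩ h
        have h := Nat.ModEq.add_right_cancel' 1 h
        apply hn g i
        have h3 : ((H g i : ℕ) : ℤ) ≡ (((-n) % p).toNat : ℤ) [ZMOD p] := by
          exact_mod_cast (Int.natCast_modEq_iff).2 h
        rw [Int.toNat_of_nonneg (Int.emod_nonneg _ hp0.ne')] at h3
        have h4 : ((H g i : ℕ) : ℤ) ≡ -n [ZMOD p] := h3.trans (Int.mod_modEq _ _)
        have h5 := (Int.modEq_iff_dvd.1 h4.symm)
        have h6 : ((H g i : ℕ) : ℤ) - -n = n + H g i := by ring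
        rwa [h6] at h5)
      exact ⟨n, fun g i => hn (g, i)⟩)
  have hS2 : 1 < S.card := by omega
  obtain ⟨g, hg', g', hg'', hne⟩ := Finset.one_lt_card.1 hS2
  have hHne : H g (t g) ≠ H g' (t g') := by
    intro h
    exact hne (congrArg Prod.fst (hinj (a₁ := (g, t g)) (a₂ := (g', t g')) h))
  have key : ∀ g ∈ S, ∀ g' ∈ S, H g (t g) < H g' (t g') →
      H g' (t g') - H g (t g) ∈ GoodEqExp a b c := by
    intro g hgS g' hgS' hlt
    have conv : ∀ n : ℕ, (∀ g ∈ S, 0 < a ^ (J - (H g (t g) + 1)) * b ^ (H g (t g) + 1) * (n : ℤ) +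
        β (H g (t g) + 1) ∧ Prime (a ^ (J - (H g (t g) + 1)) * b ^ (H g (t g) + 1) * (n : ℤ) +
        β (H g (t g) + 1))) → ∀ g ∈ S, ∃ p : ℕ, p.Prime ∧
        a ^ (J - (H g (t g) + 1)) * b ^ (H g (t g) + 1) * n + β (H g (t g) + 1) = p := by
      intro n hn g hg
      obtain ⟨h4, h5⟩ := hn g hg
      exact ⟨_, by rw [Nat.prime_iff_prime_int, Int.toNat_of_nonneg h4.le]; exact h5,
        (Int.toNat_of_nonneg h4.le).symm⟩
    have h4 := eq_of_forms ha hb hβ (show H g (t g) + 1 < H g' (t g') + 1 by omega)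
      (hHJ (g', t g')).2.le (hBig.mono fun n hn => ⟨conv n hn g hgS, conv n hn g' hgS'⟩)
    rwa [Nat.add_sub_add_right] at h4
  rcases lt_or_gt_of_ne hHne with h | h
  · exact ⟨g, g', t g, t g', hne, h, key g hg' g' hg'' h⟩
  · exact ⟨g', g, t g', t g, hne.symm, h, key g' hg'' g hg' h⟩

open Classical in
/-- the proportion of good exponents in every long window -/
theorem rat_windows (a b c : ℤ) (ha : 1 ≤ a) (hb : 1 ≤ b) (hc : c ≠ 0) (hab : IsCoprime a b)
    (hac : IsCoprime a c) (hbc : IsCoprime b c) (hpar : ¬ (Odd a ∧ Odd b ∧ Odd c))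
    (ε : ℝ) (hε : 0 < ε) : ∃ L : ℕ, ∀ M : ℕ, L ≤ M → ∀ u : ℕ,
      ((if 3 ∣ a - b ∧ ¬ 3 ∣ c then (1 / 6 : ℝ) else if 5 ∣ a - b ∧ ¬ 5 ∣ c then 1 / 5 else 1 / 4) - ε) *
        (M : ℝ) ≤ (win (GoodEqExp a b c) u M : ℝ) := by
  classical
  have h2safe : (2 : ℤ) ∣ a - b → (2 : ℤ) ∣ c := by
    intro h3
    by_contra h4
    obtain ⟨h5, h6⟩ := bad_not_dvd hab Nat.prime_two (by exact_mod_cast h3)
    apply hpar
    rw [← Int.not_even_iff_odd, ← Int.not_even_iff_odd, ← Int.not_even_iff_odd]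
    exact ⟨fun h => h5 (by exact_mod_cast h.two_dvd), fun h => h6 (by exact_mod_cast h.two_dvd),
      fun h => h4 h.two_dvd⟩
  have hpr : ∀ N : ℕ, N ∣ 30 → ∀ p : ℕ, p.Prime → p ∣ N → p = 2 ∨ (p = 3 ∧ 3 ∣ N) ∨ (p = 5 ∧ 5 ∣ N) := by
    intro N hN p hp hpN
    have h3 : p ∣ 30 := hpN.trans hN
    have h4 : p ∈ Nat.primeFactors 30 := Nat.mem_primeFactors.2 ⟨hp, h3, by norm_num⟩
    have h5 : Nat.primeFactors 30 = {2, 3, 5} := by decide +kernel
    rw [h5] at h4
    simp only [mem_insert, mem_singleton] at h4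
    rcases h4 with rfl | rfl | rfl
    · left; rfl
    · right; left; exact ⟨rfl, hpN⟩
    · right; right; exact ⟨rfl, hpN⟩
  by_cases h3 : (3 : ℤ) ∣ a - b ∧ ¬ (3 : ℤ) ∣ c
  · rw [if_pos h3]
    refine sixth_mult (N := 2) (dvd_refl 2) (five_rat a b c ha hb hc hab hac hbc hpar 2 ?_) hε
    intro p hp hpN hp1
    rcases hpr 2 (by norm_num) p hp hpN with rfl | ⟨-, h4⟩ | ⟨-, h4⟩
    · exact h2safe hp1
    · norm_num at h4
    · norm_num at h4
  · rw [if_neg h3]
    have h3safe : (3 : ℤ) ∣ a - b → (3 : ℤ) ∣ c := fun h => by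
      by_contra h4
      exact h3 ⟨h, h4⟩
    by_cases h5 : (5 : ℤ) ∣ a - b ∧ ¬ (5 : ℤ) ∣ c
    · rw [if_pos h5]
      refine fifth_mult (N := 6) (dvd_refl 6) (five_rat a b c ha hb hc hab hac hbc hpar 6 ?_) hε
      intro p hp hpN hp1
      rcases hpr 6 (by norm_num) p hp hpN with rfl | ⟨rfl, -⟩ | ⟨-, h4⟩
      · exact h2safe hp1
      · exact h3safe hp1
      · norm_num at h4
    · rw [if_neg h5]
      refine quarter_mult (N := 30) (dvd_refl 30) (five_rat a b c ha hb hc hab hac hbc hpar 30 ?_) hε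
      intro p hp hpN hp1
      rcases hpr 30 (by norm_num) p hp hpN with rfl | ⟨rfl, -⟩ | ⟨rfl, -⟩
      · exact h2safe hp1
      · exact h3safe hp1
      · by_contra h4
        exact h5 ⟨hp1, h4⟩

/-- long chains of primes with bounded exponents -/
theorem rat_chains (m : ℕ) : ∃ R : ℕ, ∀ a b c : ℤ, 1 ≤ a → 1 ≤ b → c ≠ 0 → IsCoprime a b →
    IsCoprime a c → IsCoprime b c → ¬ (Odd a ∧ Odd b ∧ Odd c) →
    ∃ T : Finset ℕ, T.card = m ∧ (∀ j ∈ T, 1 ≤ j ∧ j ≤ R) ∧
      Big {q : ℕ | q.Prime ∧ ∀ j ∈ T, ∃ p : ℕ, p.Prime ∧ a ^ j * p - b ^ j * q = cj a b c j} := by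
  classical
  obtain ⟨K, hK, hQ⟩ := quarterB (4 * (m + 1))
  obtain ⟨Q, hQd⟩ : ∃ Q : ℕ, Q = (4 * (m + 1) * K).factorial := ⟨_, rfl⟩
  have hQ0 : 0 < Q := by rw [hQd]; exact Nat.factorial_pos _
  refine ⟨Q * (4 * (m + 1) * K), fun a b c ha hb hc hab hac hbc hpar => ?_⟩
  obtain ⟨H, hH⟩ : ∃ H : Fin (4 * (m + 1)) × Fin K → ℕ,
      H = fun x => Q * ((finProdFinEquiv x : Fin (4 * (m + 1) * K)) : ℕ) := ⟨_, rfl⟩
  have hHinj : Function.Injective H := by
    intro x y h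
    rw [hH] at h
    simp only at h
    have h3 := Nat.eq_of_mul_eq_mul_left hQ0 h
    exact finProdFinEquiv.injective (Fin.ext h3)
  have hHle : ∀ x, H x ≤ Q * (4 * (m + 1) * K) := by
    intro x
    rw [hH]
    exact Nat.mul_le_mul_left _ (finProdFinEquiv x).2.le
  obtain ⟨J, hJd⟩ : ∃ J : ℕ, J = Q * (4 * (m + 1) * K) + 2 := ⟨_, rfl⟩
  obtain ⟨β, hβ⟩ := exists_beta a b c (by omega) hab J
  have hHJ : ∀ x, 1 ≤ H x + 1 ∧ H x + 1 < J := fun x => ⟨by omega, by have := hHle x; omega⟩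
  obtain ⟨S, t, hS, hBig⟩ := hQ (fun g i => a ^ (J - (H (g, i) + 1)) * b ^ (H (g, i) + 1))
    (fun g i => β (H (g, i) + 1))
    (fun g i => by positivity)
    (by
      rintro x y h
      simp only [Prod.mk.injEq] at h
      have h1 := forms_inj ha hb hc hab hβ (hHJ (x.1, x.2)).2.le (hHJ (y.1, y.2)).2.le h.1 h.2
      exact hHinj (show H x = H y by have e1 : (x.1, x.2) = x := rfl; have e2 : (y.1, y.2) = y := rfl; rw [e1, e2] at h1; omega))
    (by
      intro p hp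
      obtain ⟨n, hn⟩ := rat_admissible hab hac hbc hpar hβ (fun x => H x + 1) hHJ hp (by
        intro _ hp1 hpc
        by_cases hpT : p ≤ 4 * (m + 1) * K
        · refine rat_miss hβ (fun x => H x + 1) (fun x => (hHJ x).2.le) hp
            (bad_not_dvd hab hp hp1).1 hp1 hpc (1 + 1) ?_
          intro x h
          have h := Nat.ModEq.add_right_cancel' 1 h
          have h3 : p ∣ Q := by rw [hQd]; exact Nat.dvd_factorial hp.pos hpT
          have h4 : H x ≡ 0 [MOD p] := by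
            rw [hH]
            exact (Nat.modEq_zero_iff_dvd).2 (Dvd.dvd.mul_right h3 _)
          have h5 : (1 : ℕ) ≡ 0 [MOD p] := h.symm.trans h4
          have h6 := (Nat.modEq_zero_iff_dvd).1 h5
          exact hp.one_lt.ne' (Nat.dvd_one.1 h6)
        · have hpp := Nat.prime_iff_prime_int.1 hp
          obtain ⟨hpa, hpb⟩ := bad_not_dvd hab hp hp1
          obtain ⟨n, hn⟩ := Pool.Agent.H361R2.exists_avoid' (m := 4 * (m + 1) * K) hp (by omega)
            (fun z => a ^ (J - (H (finProdFinEquiv.symm z) + 1)) * b ^ (H (finProdFinEquiv.symm z) + 1))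
            (fun z => β (H (finProdFinEquiv.symm z) + 1))
            (by
              rintro z ⟨h3, -⟩
              rcases hpp.dvd_or_dvd h3 with h4 | h4
              · exact hpa (hpp.dvd_of_dvd_pow h4)
              · exact hpb (hpp.dvd_of_dvd_pow h4))
          refine ⟨n, fun x => ?_⟩
          have := hn (finProdFinEquiv x)
          simp only [Equiv.symm_apply_apply] at this
          exact this)
      exact ⟨n, fun g i => hn (g, i)⟩)
  obtain ⟨S', hS'S, hS'⟩ := exists_subset_card_eq (show m + 1 ≤ S.card by omega)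
  have hne : S'.Nonempty := by rw [← card_pos]; omega
  obtain ⟨g0, hg0, hmin⟩ := exists_min_image S' (fun g => H (g, t g)) hne
  have hinjS : Function.Injective (fun g => H (g, t g)) := fun g g' h =>
    congrArg Prod.fst (hHinj h)
  refine ⟨(S'.erase g0).image (fun g => H (g, t g) - H (g0, t g0)), ?_, ?_, ?_⟩
  · rw [card_image_of_injOn, card_erase_of_mem hg0, hS']
    · rfl
    · intro g hg g' hg' h
      have h3 := hmin g (mem_of_mem_erase hg)
      have h4 := hmin g' (mem_of_mem_erase hg')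
      simp only at h h3 h4
      exact hinjS (show H (g, t g) = H (g', t g') by omega)
  · intro j hj
    obtain ⟨g, hg, rfl⟩ := mem_image.1 hj
    have h3 : H (g0, t g0) ≤ H (g, t g) := hmin g (mem_of_mem_erase hg)
    have h4 : H (g, t g) ≠ H (g0, t g0) := fun h => (ne_of_mem_erase hg) (hinjS h)
    have h5 := hHle (g, t g)
    constructor <;> omega
  · have hD : (0 : ℤ) < a ^ (J - (H (g0, t g0) + 1)) * b ^ (H (g0, t g0) + 1) := by positivity
    have hDn : (((a ^ (J - (H (g0, t g0) + 1)) * b ^ (H (g0, t g0) + 1)).toNat : ℕ) : ℤ) =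
        a ^ (J - (H (g0, t g0) + 1)) * b ^ (H (g0, t g0) + 1) := Int.toNat_of_nonneg hD.le
    refine Big.affine hBig (a ^ (J - (H (g0, t g0) + 1)) * b ^ (H (g0, t g0) + 1)).toNat
      (β (H (g0, t g0) + 1)) (by omega)
      (fun n => (a ^ (J - (H (g0, t g0) + 1)) * b ^ (H (g0, t g0) + 1) * n + β (H (g0, t g0) + 1)).toNat)
      ?_ ?_
    · intro n hn
      rw [hDn]
      exact Int.toNat_of_nonneg (hn g0 (hS'S hg0)).1.le
    · intro n hn
      obtain ⟨h3, h4⟩ := hn g0 (hS'S hg0)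
      have h5 : (((a ^ (J - (H (g0, t g0) + 1)) * b ^ (H (g0, t g0) + 1) * n +
          β (H (g0, t g0) + 1)).toNat : ℕ) : ℤ) = a ^ (J - (H (g0, t g0) + 1)) *
          b ^ (H (g0, t g0) + 1) * n + β (H (g0, t g0) + 1) := Int.toNat_of_nonneg h3.le
      refine ⟨by rw [Nat.prime_iff_prime_int, h5]; exact h4, ?_⟩
      intro j hj
      obtain ⟨g, hg, rfl⟩ := mem_image.1 hj
      have h6 : H (g0, t g0) ≤ H (g, t g) := hmin g (mem_of_mem_erase hg)
      obtain ⟨h7, h8⟩ := hn g (hS'S (mem_of_mem_erase hg))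
      refine ⟨(a ^ (J - (H (g, t g) + 1)) * b ^ (H (g, t g) + 1) * n + β (H (g, t g) + 1)).toNat, ?_, ?_⟩
      · rw [Nat.prime_iff_prime_int, Int.toNat_of_nonneg h7.le]; exact h8
      · rw [Int.toNat_of_nonneg h7.le, h5]
        have h9 := LL_iter hβ (n : ℤ) (H (g0, t g0) + 1) (H (g, t g) - H (g0, t g0))
          (by have := (hHJ (g, t g)).2; omega)
        rw [show H (g0, t g0) + 1 + (H (g, t g) - H (g0, t g0)) = H (g, t g) + 1 by omega] at h9
        unfold LL at h9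
        linear_combination h9

end Pool.Agent.W25.IT.Rat
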