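import Pool.Agent.H361R2.Density
import Pool.Agent.H732R3.BigQ

/-!
# Iterates of `x ↦ a + d x`: basic definitions and elementary lemmas
-/

set_option autoImplicit false

namespace Pool.Agent.W25.IT

open Finset Filter Pool.Agent.H732R3.BigQ

/-- the pair `(a, d)` has the property of the question, in a quantitative form -/
def GoodPair (a d : ℤ) : Prop :=
  Int.gcd a d = 1 ∧ 2 ∣ a * d ∧ {q : ℕ | q.Prime ∧ ∃ p : ℕ, p.Prime ∧ a + q * d = p}.Infinite ∧
    ∀ η : ℝ, 0 < η → ∃ᶠ x : ℝ in atTop, x ^ (1 - η) ≤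
      ({q : ℕ | (q.Prime ∧ ∃ p : ℕ, p.Prime ∧ a + q * d = p) ∧ (q : ℝ) ≤ x}.ncard : ℝ)

theorem goodPair_of_big {a d : ℤ} (hd : 0 < d)
    (h : Big {q : ℕ | q.Prime ∧ ∃ p : ℕ, p.Prime ∧ a + q * d = p}) : GoodPair a d :=
  ⟨Pool.Agent.H361R2.good_gcd hd h.infinite, Pool.Agent.H361R2.good_parity hd h.infinite,
    h.infinite, h⟩

/-- from two forms to a pair -/
theorem pair_of_forms {D D' R b b' : ℤ} (hD : 0 < D) (hR : 0 < R) (hDR : D' = R * D)
    (h : Big {n : ℕ | (∃ p : ℕ, p.Prime ∧ D * n + b = p) ∧ ∃ q : ℕ, q.Prime ∧ D' * n + b' = q}) :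
    GoodPair (b' - R * b) R := by
  apply goodPair_of_big hR
  have hDn : ((D.toNat : ℕ) : ℤ) = D := Int.toNat_of_nonneg hD.le
  refine Big.affine h D.toNat b (by omega) (fun n => (D * n + b).toNat) ?_ ?_
  · rintro n ⟨⟨p, -, hp⟩, -⟩
    rw [hDn]
    exact Int.toNat_of_nonneg (by rw [hp]; positivity)
  · rintro n ⟨⟨p, hpp, hp⟩, q, hq, hqe⟩
    have h1 : (D * n + b).toNat = p := by rw [hp]; simp
    show ((D * n + b).toNat).Prime ∧ _
    rw [h1]
    refine ⟨hpp, q, hq, ?_⟩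
    rw [← hqe, ← hp, hDR]
    ring

/-- the constant coefficient of the `j`-th iterate of `x ↦ a + d x` -/
def itc (a d : ℤ) (j : ℕ) : ℤ := a * ∑ i ∈ range j, d ^ i

theorem itc_zero (a d : ℤ) : itc a d 0 = 0 := by simp [itc]

theorem itc_succ (a d : ℤ) (j : ℕ) : itc a d (j + 1) = a + d * itc a d j := by
  unfold itc
  rw [Finset.sum_range_succ']
  simp only [pow_zero, pow_succ]
  rw [← Finset.sum_mul]
  ring

theorem itc_add (a d : ℤ) (i j : ℕ) : itc a d (i + j) = itc a d i + d ^ i * itc a d j := by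
  unfold itc
  rw [Finset.sum_range_add]
  simp only [pow_add]
  rw [← Finset.mul_sum]
  ring

theorem itc_sub (a d : ℤ) {i j : ℕ} (h : i ≤ j) :
    itc a d j - d ^ (j - i) * itc a d i = itc a d (j - i) := by
  have h1 := itc_add a d (j - i) i
  rw [Nat.sub_add_cancel h] at h1
  rw [h1]
  ring

theorem itc_mul (a d : ℤ) (j : ℕ) : (d - 1) * itc a d j = a * (d ^ j - 1) := by
  unfold itc
  have := mul_geom_sum d j
  linear_combination a * this

/-- a value of the `j`-th iterate -/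
theorem itc_val (a d n : ℤ) (j : ℕ) :
    (d - 1) * (d ^ j * n + itc a d j) + a = d ^ j * ((d - 1) * n + a) := by
  have := itc_mul a d j
  linear_combination this

theorem itc_dvd_of_dvd_a {p a d : ℤ} (h : p ∣ a) (j : ℕ) : p ∣ itc a d j := Dvd.dvd.mul_right h _

theorem itc_mod_d {p a d : ℤ} (h : p ∣ d) {j : ℕ} (hj : 1 ≤ j) : p ∣ itc a d j - a := by
  obtain ⟨i, rfl⟩ : ∃ i, j = i + 1 := ⟨j - 1, by omega⟩
  rw [itc_succ]
  have : a + d * itc a d i - a = d * itc a d i := by ring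
  rw [this]
  exact Dvd.dvd.mul_right h _

theorem pow_sub_one_dvd {p d : ℤ} (h : p ∣ d - 1) (j : ℕ) : p ∣ d ^ j - 1 :=
  h.trans (sub_one_dvd_pow_sub_one_aux d j)
where
  sub_one_dvd_pow_sub_one_aux (d : ℤ) (j : ℕ) : d - 1 ∣ d ^ j - 1 := by
    have := sub_dvd_pow_sub_pow d 1 j
    simpa using this

theorem itc_mod_d_sub_one {p a d : ℤ} (h : p ∣ d - 1) (j : ℕ) : p ∣ itc a d j - j * a := by
  induction j with
  | zero => simp [itc_zero]
  | succ j ih =>
    rw [itc_succ]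
    push_cast
    have : a + d * itc a d j - (j + 1) * a = (itc a d j - j * a) + (d - 1) * itc a d j := by ring
    rw [this]
    exact dvd_add ih (Dvd.dvd.mul_right h _)

theorem itc_coprime {a d : ℤ} (h : Int.gcd a d = 1) {j : ℕ} {p : ℕ} (hp : p.Prime)
    (h1 : (p : ℤ) ∣ d ^ j) (h2 : (p : ℤ) ∣ itc a d j) : False := by
  have hpp := Nat.prime_iff_prime_int.1 hp
  have hd : (p : ℤ) ∣ d := hpp.dvd_of_dvd_pow h1
  have hj : 1 ≤ j := by
    by_contra hj
    have : j = 0 := by omega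
    subst this
    rw [pow_zero] at h1
    exact hpp.not_isUnit (isUnit_of_dvd_one h1)
  have ha : (p : ℤ) ∣ a := by
    have h3 := dvd_sub h2 (itc_mod_d (a := a) hd hj)
    rwa [sub_sub_cancel] at h3
  have h4 := (Int.isCoprime_iff_gcd_eq_one.2 h).isUnit_of_dvd' ha hd
  exact hpp.not_isUnit h4

theorem itc_inj {a d : ℤ} (hd : 1 ≤ d) (ha : a ≠ 0) {i j : ℕ} (h1 : d ^ i = d ^ j)
    (h2 : itc a d i = itc a d j) : i = j := by
  rcases hd.eq_or_lt with h | h
  · subst h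
    unfold itc at h2
    simp only [one_pow, sum_const, card_range, nsmul_eq_mul, mul_one] at h2
    have := mul_left_cancel₀ ha h2
    exact_mod_cast this
  · have : Function.Injective (fun n : ℕ => d ^ n) := pow_right_injective₀ (by omega) (by omega)
    exact this h1

/-- the iterates have no fixed prime divisor, if the exponents miss a class modulo the bad primes -/
theorem iter_admissible {ι : Type*} {a d : ℤ} (h : Int.gcd a d = 1) (h2 : 2 ∣ a * d) (e : ι → ℕ)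
    {p : ℕ} (hp : p.Prime)
    (hE : 3 ≤ p → (p : ℤ) ∣ d - 1 → ¬ (p : ℤ) ∣ a → ∃ n : ℤ, ∀ i, ¬ (p : ℤ) ∣ d ^ e i * n + itc a d (e i)) :
    ∃ n : ℤ, ∀ i, ¬ (p : ℤ) ∣ d ^ e i * n + itc a d (e i) := by
  have hpp := Nat.prime_iff_prime_int.1 hp
  have hcop := Int.isCoprime_iff_gcd_eq_one.2 h
  by_cases hpa : (p : ℤ) ∣ a
  · have hpd : ¬ (p : ℤ) ∣ d := fun hd => hpp.not_isUnit (hcop.isUnit_of_dvd' hpa hd)
    refine ⟨1, fun i hi => hpd ?_⟩
    have h3 := (dvd_add_left (itc_dvd_of_dvd_a (d := d) hpa (e i))).1 hi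
    rw [mul_one] at h3
    exact hpp.dvd_of_dvd_pow h3
  by_cases hpd : (p : ℤ) ∣ d
  · refine ⟨1, fun i hi => ?_⟩
    rcases Nat.eq_zero_or_pos (e i) with h0 | h0
    · rw [h0, pow_zero, itc_zero, one_mul, add_zero] at hi
      exact hpp.not_isUnit (isUnit_of_dvd_one hi)
    · apply hpa
      have h3 := itc_mod_d (a := a) hpd h0
      have h4 : (p : ℤ) ∣ d ^ e i * 1 := by
        rw [mul_one]
        exact hpd.trans (dvd_pow_self d (by omega))
      have h5 := (dvd_add_right h4).1 hi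
      have h6 := dvd_sub h5 h3
      rwa [sub_sub_cancel] at h6
  by_cases hp1 : (p : ℤ) ∣ d - 1
  · apply hE _ hp1 hpa
    have h3 := hp.two_le
    by_contra hlt
    have hp2 : p = 2 := by omega
    subst hp2
    have h4 : (2 : ℤ) ∣ a * d := h2
    rcases Int.prime_two.dvd_or_dvd h4 with h5 | h5
    · exact hpa (by exact_mod_cast h5)
    · exact hpd (by exact_mod_cast h5)
  · -- the fixed point modulo `p`
    have hc : IsCoprime (d - 1) (p : ℤ) := by
      refine (Int.isCoprime_iff_gcd_eq_one.2 ?_)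
      by_contra hne
      obtain ⟨r, hr, hrd⟩ := Nat.exists_prime_and_dvd hne
      have h3 : (r : ℤ) ∣ (Int.gcd (d - 1) p : ℤ) := Int.natCast_dvd_natCast.2 hrd
      have h4 : r = p := (Nat.prime_dvd_prime_iff_eq hr hp).1
        (Int.natCast_dvd_natCast.1 (h3.trans (Int.gcd_dvd_right _ _)))
      apply hp1
      rw [← h4]
      exact h3.trans (Int.gcd_dvd_left _ _)
    obtain ⟨u, v, huv⟩ := hc
    refine ⟨-a * u, fun i hi => hpa ?_⟩
    have h3 := itc_val a d (-a * u) (e i)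
    have h4 : (d - 1) * (-a * u) + a = p * (a * v) := by linear_combination -a * huv
    rw [h4] at h3
    have h5 : (p : ℤ) ∣ (d - 1) * (d ^ e i * (-a * u) + itc a d (e i)) + a := by
      rw [h3]
      exact ⟨d ^ e i * (a * v), by ring⟩
    exact (dvd_add_right (Dvd.dvd.mul_left hi _)).1 h5

/-- exponents missing a class -/
theorem iter_miss {ι : Type*} {a d : ℤ} (e : ι → ℕ) {p : ℕ} (hp : p.Prime)
    (hp1 : (p : ℤ) ∣ d - 1) (hpa : ¬ (p : ℤ) ∣ a) (r : ℕ) (hr : ∀ i, ¬ e i ≡ r [MOD p]) :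
    ∃ n : ℤ, ∀ i, ¬ (p : ℤ) ∣ d ^ e i * n + itc a d (e i) := by
  have hpp := Nat.prime_iff_prime_int.1 hp
  refine ⟨-(r * a), fun i hi => ?_⟩
  have h1 := itc_mod_d_sub_one (a := a) hp1 (e i)
  have h2 := pow_sub_one_dvd hp1 (e i)
  have h3 : (p : ℤ) ∣ ((e i : ℤ) - r) * a := by
    have h4 : ((e i : ℤ) - r) * a = (d ^ e i * (-(r * a)) + itc a d (e i)) -
        (itc a d (e i) - e i * a) + (d ^ e i - 1) * (r * a) := by ring
    rw [h4]
    exact dvd_add (dvd_sub hi h1) (Dvd.dvd.mul_right h2 _)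
  rcases hpp.dvd_or_dvd h3 with h4 | h4
  · apply hr i
    have h5 : (r : ℤ) ≡ e i [ZMOD p] := Int.modEq_iff_dvd.2 h4
    exact ((Int.natCast_modEq_iff).1 h5).symm
  · exact hpa h4

end Pool.Agent.W25.IT
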