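import Pool.Agent.W25.IT.M49

/-!
# Chains of 160 forms and iterates
-/

set_option autoImplicit false

namespace Pool.Agent.W25.IT

open Finset Filter Pool.Agent.H732R3.BigQ Pool.Agent.H355R2.MT

/-- drop the forms with the least frequent zero modulo `p` -/
theorem drop_one {ι : Type*} [DecidableEq ι] (D b : ι → ℤ) (hcop : ∀ i, Int.gcd (b i) (D i) = 1)
    {p : ℕ} (hp : p.Prime) (S : Finset ι) :
    ∃ S' ⊆ S, S'.card = S.card - S.card / p ∧ ∃ n : ℤ, ∀ i ∈ S', ¬ (p : ℤ) ∣ D i * n + b i := by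
  classical
  have hpp := Nat.prime_iff_prime_int.1 hp
  have hsum : ∑ n ∈ range p, (S.filter (fun i => (p : ℤ) ∣ D i * n + b i)).card ≤ S.card := by
    have h1 : ∑ n ∈ range p, (S.filter (fun i => (p : ℤ) ∣ D i * n + b i)).card =
        ∑ i ∈ S, ((range p).filter (fun n : ℕ => (p : ℤ) ∣ D i * n + b i)).card := by
      simp only [card_filter]
      exact sum_comm
    rw [h1]
    refine (sum_le_sum (g := fun _ => 1) fun i _ => ?_).trans (by simp)
    rw [card_le_one]
    intro x hx y hy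
    rw [mem_filter, mem_range] at hx hy
    have h2 := dvd_sub hx.2 hy.2
    have h3 : (D i * (x : ℤ) + b i) - (D i * (y : ℤ) + b i) = D i * ((x : ℤ) - y) := by ring
    rw [h3] at h2
    rcases hpp.dvd_or_dvd h2 with h4 | h4
    · exfalso
      have h5 := (dvd_add_right (Dvd.dvd.mul_right h4 (x : ℤ))).1 hx.2
      exact hpp.not_isUnit ((Int.isCoprime_iff_gcd_eq_one.2 (hcop i)).isUnit_of_dvd' h5 h4)
    · have h5 : (y : ℤ) ≡ x [ZMOD p] := Int.modEq_iff_dvd.2 h4
      exact (Nat.ModEq.eq_of_lt_of_lt ((Int.natCast_modEq_iff).1 h5) hy.1 hx.1).symm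
  obtain ⟨n, hn, hcard⟩ : ∃ n ∈ range p,
      (S.filter (fun i => (p : ℤ) ∣ D i * n + b i)).card ≤ S.card / p := by
    by_contra hcon
    push Not at hcon
    have h1 : ∑ _n ∈ range p, (S.card / p + 1) ≤
        ∑ n ∈ range p, (S.filter (fun i => (p : ℤ) ∣ D i * n + b i)).card :=
      sum_le_sum fun n hn => hcon n hn
    rw [sum_const, card_range, smul_eq_mul] at h1
    have h2 := h1.trans hsum
    have h3 : S.card < p * (S.card / p + 1) := by
      have := Nat.lt_mul_div_succ S.card hp.pos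
      exact this
    omega
  have h2 : S.card - S.card / p ≤ (S.filter (fun i => ¬ (p : ℤ) ∣ D i * n + b i)).card := by
    have := card_filter_add_card_filter_not (s := S) (fun i => (p : ℤ) ∣ D i * n + b i)
    omega
  obtain ⟨S', h3, h4⟩ := exists_subset_card_eq h2
  exact ⟨S', h3.trans (filter_subset _ _), h4, n, fun i hi => (mem_filter.1 (h3 hi)).2⟩

/-- the same for a list of primes -/
theorem drop_list {ι : Type*} [DecidableEq ι] (D b : ι → ℤ) (hcop : ∀ i, Int.gcd (b i) (D i) = 1) :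
    ∀ (L : List ℕ), (∀ p ∈ L, p.Prime) → ∀ (S : Finset ι),
    ∃ S' ⊆ S, S'.card = L.foldl (fun n p => n - n / p) S.card ∧
      ∀ p ∈ L, ∃ n : ℤ, ∀ i ∈ S', ¬ (p : ℤ) ∣ D i * n + b i := by
  intro L
  induction L with
  | nil => intro _ S; exact ⟨S, subset_rfl, rfl, by simp⟩
  | cons p L ih =>
    intro hL S
    obtain ⟨S1, h1, h2, n, hn⟩ := drop_one D b hcop (hL p (by simp)) S
    obtain ⟨S2, h3, h4, h5⟩ := ih (fun q hq => hL q (by simp [hq])) S1
    refine ⟨S2, h3.trans h1, ?_, ?_⟩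
    · rw [h4, h2]; rfl
    · intro q hq
      rcases List.mem_cons.1 hq with h6 | h6
      · subst h6
        exact ⟨n, fun i hi => hn i (h3 hi)⟩
      · exact h5 q h6

/-- two of 49 admissible forms, indexed by a finite set of indices -/
theorem forms49_finset {ι : Type*} (S : Finset ι) (hS : S.card = 49) (D b : ι → ℤ)
    (hD : ∀ i, 1 ≤ D i) (hcop : ∀ i, Int.gcd (b i) (D i) = 1)
    (hinj : Function.Injective (fun i => (D i, b i)))
    (hadm : ∀ p : ℕ, p.Prime → p ≤ 47 → ∃ n : ℤ, ∀ i ∈ S, ¬ (p : ℤ) ∣ D i * n + b i) :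
    ∃ i ∈ S, ∃ j ∈ S, i ≠ j ∧ Big {n : ℕ | (∃ p : ℕ, p.Prime ∧ D i * n + b i = p) ∧
      (∃ q : ℕ, q.Prime ∧ D j * n + b j = q)} := by
  classical
  set φ : Fin 49 ≃ S := (S.equivFinOfCardEq hS).symm with hφ
  have hDn : ∀ i, (((D i).toNat : ℕ) : ℤ) = D i := fun i => Int.toNat_of_nonneg (by have := hD i; omega)
  obtain ⟨i, j, hij, h⟩ := forms49 (fun i => (D (φ i)).toNat) (fun i => b (φ i))
    (fun i => by have := hD (φ i); omega)
    (by
      intro i j h
      simp only [Prod.mk.injEq] at h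
      have h1 : D (φ i) = D (φ j) := by rw [← hDn, ← hDn (φ j : ι), h.1]
      have h2 : ((φ i : S) : ι) = φ j := hinj (by simp only [Prod.mk.injEq]; exact ⟨h1, h.2⟩)
      exact φ.injective (Subtype.ext h2))
    (by
      intro p hp
      by_cases hp47 : p ≤ 47
      · obtain ⟨n, hn⟩ := hadm p hp hp47
        refine ⟨n, fun i => ?_⟩
        rw [hDn]
        exact hn _ (φ i).2
      · have h49 : 49 < p := by
          have h1 : p ≠ 48 := by rintro rfl; exact absurd hp (by norm_num)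
          have h2 : p ≠ 49 := by rintro rfl; exact absurd hp (by norm_num)
          omega
        obtain ⟨n, hn⟩ := exists_avoid' hp h49 (fun i => D (φ i)) (fun i => b (φ i)) (by
          rintro i ⟨h1, h2⟩
          exact (Nat.prime_iff_prime_int.1 hp).not_isUnit
            ((Int.isCoprime_iff_gcd_eq_one.2 (hcop _)).isUnit_of_dvd' h2 h1))
        refine ⟨n, fun i => ?_⟩
        rw [hDn]
        exact hn i)
  refine ⟨φ i, (φ i).2, φ j, (φ j).2, fun h1 => hij (φ.injective (Subtype.ext h1)), ?_⟩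
  simp only [hDn] at h
  exact h

theorem chain160 (b D : Fin 160 → ℤ) (hD : ∀ i, 1 ≤ D i) (hcop : ∀ i, Int.gcd (b i) (D i) = 1)
    (h2 : ∀ i, 2 ∣ b i * D i) (hdvd : ∀ i j, i ≤ j → D i ∣ D j)
    (hinj : Function.Injective (fun i => (b i, D i))) :
    ∃ i j, i < j ∧ GoodPair (b j - D j / D i * b i) (D j / D i) := by
  classical
  obtain ⟨S, -, hS, hadm⟩ := drop_list D b hcop [3, 5, 7, 11, 13, 17, 19, 23, 29, 31, 37, 41, 43, 47]
    (by
      intro p hp
      fin_cases hp <;> norm_num) univ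
  have hS49 : S.card = 49 := by
    rw [hS, card_univ, Fintype.card_fin]
    rfl
  obtain ⟨i, -, j, -, hij, h⟩ := forms49_finset S hS49 D b hD hcop
    (by
      intro x y h
      simp only [Prod.mk.injEq] at h
      exact hinj (by simp only [Prod.mk.injEq]; exact ⟨h.2, h.1⟩))
    (by
      intro p hp hp47
      by_cases hp2 : p = 2
      · subst hp2
        refine ⟨1, fun i _ hi => ?_⟩
        have h3 : (2 : ℤ) ∣ D i + b i := by simpa using hi
        have hne : ¬ ((2 : ℤ) ∣ b i ∧ (2 : ℤ) ∣ D i) := fun h4 =>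
          Int.prime_two.not_isUnit ((Int.isCoprime_iff_gcd_eq_one.2 (hcop i)).isUnit_of_dvd' h4.1 h4.2)
        rcases Int.prime_two.dvd_or_dvd (h2 i) with h4 | h4
        · exact hne ⟨h4, (dvd_add_left h4).1 h3⟩
        · exact hne ⟨(dvd_add_right h4).1 h3, h4⟩
      · apply hadm
        interval_cases p <;> first
          | exact absurd rfl hp2
          | exact absurd hp (by decide)
          | simp)
  have key : ∀ i j : Fin 160, i < j → Big {n : ℕ | (∃ p : ℕ, p.Prime ∧ D i * n + b i = p) ∧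
      (∃ q : ℕ, q.Prime ∧ D j * n + b j = q)} → GoodPair (b j - D j / D i * b i) (D j / D i) := by
    intro i j hij hB
    have h3 : D j / D i * D i = D j := Int.ediv_mul_cancel (hdvd i j hij.le)
    have h4 : 0 < D j / D i := by
      have h5 := hD j
      have h6 := hD i
      by_contra hcon
      have h7 : D j / D i * D i ≤ 0 := mul_nonpos_of_nonpos_of_nonneg (by omega) (by omega)
      omega
    exact pair_of_forms (by have := hD i; omega) h4 h3.symm hB
  rcases lt_or_gt_of_ne hij with h3 | h3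
  · exact ⟨i, j, h3, key i j h3 h⟩
  · exact ⟨j, i, h3, key j i h3 (h.mono fun n hn => ⟨hn.2, hn.1⟩)⟩

/-- exponents missing a class modulo the bad primes -/
theorem iter49 (a d : ℤ) (hd : 1 ≤ d) (hg : Int.gcd a d = 1) (h2 : 2 ∣ a * d) (ha : a ≠ 0)
    (E : Finset ℕ) (hE : 49 ≤ E.card)
    (hcls : ∀ p : ℕ, p.Prime → 3 ≤ p → p ≤ 47 → (p : ℤ) ∣ d - 1 → ¬ (p : ℤ) ∣ a →
      ∃ r : ℕ, ∀ e ∈ E, ¬ e ≡ r [MOD p]) :
    ∃ e ∈ E, ∃ e' ∈ E, e < e' ∧ GoodPair (itc a d (e' - e)) (d ^ (e' - e)) := by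
  classical
  obtain ⟨S, hSE, hS⟩ := exists_subset_card_eq hE
  have hinj : Function.Injective (fun i : ℕ => (d ^ i, itc a d i)) := by
    intro i j h
    simp only [Prod.mk.injEq] at h
    exact itc_inj hd ha h.1 h.2
  obtain ⟨i, hi, j, hj, hij, h⟩ := forms49_finset S hS (fun i => d ^ i) (fun i => itc a d i)
    (fun i => one_le_pow₀ hd)
    (fun i => by
      by_contra hne
      obtain ⟨r, hr, hrd⟩ := Nat.exists_prime_and_dvd hne
      have h1 : (r : ℤ) ∣ (Int.gcd (itc a d i) (d ^ i) : ℤ) := Int.natCast_dvd_natCast.2 hrd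
      exact itc_coprime hg hr (h1.trans (Int.gcd_dvd_right _ _)) (h1.trans (Int.gcd_dvd_left _ _)))
    hinj
    (by
      intro p hp hp47
      obtain ⟨n, hn⟩ := iter_admissible hg h2 (fun i : S => (i : ℕ)) hp (by
        intro hp3 hp1 hpa
        obtain ⟨r, hr⟩ := hcls p hp hp3 hp47 hp1 hpa
        exact iter_miss (fun i : S => (i : ℕ)) hp hp1 hpa r (fun i => hr i (hSE i.2)))
      exact ⟨n, fun i hi => hn ⟨i, hi⟩⟩)
  have key : ∀ i ∈ S, ∀ j ∈ S, i < j → Big {n : ℕ | (∃ p : ℕ, p.Prime ∧ d ^ i * n + itc a d i = p) ∧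
      (∃ q : ℕ, q.Prime ∧ d ^ j * n + itc a d j = q)} →
      ∃ e ∈ E, ∃ e' ∈ E, e < e' ∧ GoodPair (itc a d (e' - e)) (d ^ (e' - e)) := by
    intro i hi j hj hij hB
    refine ⟨i, hSE hi, j, hSE hj, hij, ?_⟩
    have h3 := pair_of_forms (R := d ^ (j - i)) (by positivity) (by positivity)
      (by rw [← pow_add, Nat.sub_add_cancel hij.le]) hB
    rwa [itc_sub a d hij.le] at h3
  rcases lt_or_gt_of_ne hij with h3 | h3
  · exact key i hi j hj h3 h
  · exact key j hj i hi h3 (h.mono fun n hn => ⟨hn.2, hn.1⟩)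

/-- an explicit set of 49 exponents -/
def E49 : Finset ℕ := {0, 2, 5, 6, 9, 11, 14, 15, 26, 27, 29, 30, 32, 35, 36, 39, 41, 42, 44, 47, 50, 51,
  54, 57, 60, 62, 65, 69, 71, 74, 77, 81, 84, 86, 90, 92, 95, 96, 99, 102, 104, 105, 107, 110, 114, 116,
  117, 119, 120}

set_option maxRecDepth 20000 in
theorem E49_card : E49.card = 49 := by decide

set_option maxRecDepth 20000 in
theorem E49_le : ∀ e ∈ E49, e ≤ 120 := by decide

set_option maxRecDepth 20000 in
theorem E49_cls (p : ℕ) (hp : p.Prime) (h3 : 3 ≤ p) (h47 : p ≤ 47) :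
    ∃ r : ℕ, ∀ e ∈ E49, ¬ e ≡ r [MOD p] := by
  have key : ∀ r : ℕ, (∀ e ∈ E49, ¬ e % p = r % p) → ∃ r : ℕ, ∀ e ∈ E49, ¬ e ≡ r [MOD p] :=
    fun r h => ⟨r, h⟩
  interval_cases p <;> first
    | exact absurd hp (by decide)
    | exact key 1 (by decide)
    | exact key 3 (by decide)
    | exact key 7 (by decide)
    | exact key 4 (by decide)
    | exact key 18 (by decide)
    | exact key 20 (by decide)
    | exact key 24 (by decide)
    | exact key 12 (by decide)

theorem iter120 (a d : ℤ) (hd : 1 ≤ d) (hg : Int.gcd a d = 1) (h2 : 2 ∣ a * d) (ha : a ≠ 0) :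
    ∃ j : ℕ, 1 ≤ j ∧ j ≤ 120 ∧ GoodPair (itc a d j) (d ^ j) := by
  obtain ⟨e, he, e', he', hlt, h⟩ := iter49 a d hd hg h2 ha E49 E49_card.ge
    (fun p hp h3 h47 _ _ => E49_cls p hp h3 h47)
  have := E49_le e' he'
  exact ⟨e' - e, by omega, by omega, h⟩

end Pool.Agent.W25.IT
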