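import Pool.Agent.W25.IT.Chain

/-!
# Positive proportion on every line through `(0, 1)`
-/

set_option autoImplicit false

namespace Pool.Agent.W25.IT

open Finset Filter Pool.Agent.H732R3.BigQ

/-- the good slopes of the maps with the fixed point `u / v` -/
def LineP (u : ℤ) (v : ℕ) : Set ℕ := {d | GoodPair (u * ((1 - (d : ℤ)) / v)) d}

theorem line_chain (u : ℤ) (v Q : ℕ) (hv : 0 < v) (hQ : (2 * u * v : ℤ) ∣ Q)
    (D : ℕ → ℕ) (hD : ∀ i < 160, 1 ≤ D i ∧ D i ≡ 1 [MOD Q])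
    (hdvd : ∀ i j, i < j → j < 160 → D i ∣ D j ∧ D i < D j) :
    ∃ i j, i < j ∧ j < 160 ∧ D j / D i ∈ LineP u v := by
  have hvz : (v : ℤ) ≠ 0 := by exact_mod_cast hv.ne'
  have hQd : ∀ i < 160, (2 * u * v : ℤ) ∣ 1 - D i := by
    intro i hi
    have h1 := (hD i hi).2
    have h2 : ((D i : ℕ) : ℤ) ≡ ((1 : ℕ) : ℤ) [ZMOD Q] := (Int.natCast_modEq_iff).2 h1
    have h3 := Int.modEq_iff_dvd.1 h2
    exact hQ.trans (by exact_mod_cast h3)
  have hdiv : ∀ i < 160, ∃ k : ℤ, (1 - (D i : ℤ)) = v * (2 * u * k) ∧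
      (1 - (D i : ℤ)) / v = 2 * u * k := by
    intro i hi
    obtain ⟨k, hk⟩ := hQd i hi
    have h1 : (1 - (D i : ℤ)) = v * (2 * u * k) := by rw [hk]; ring
    exact ⟨k, h1, by rw [h1]; exact Int.mul_ediv_cancel_left _ hvz⟩
  obtain ⟨i, j, hij, h⟩ := chain160 (fun i => u * ((1 - (D i : ℤ)) / v)) (fun i => (D i : ℤ))
    (fun i => by exact_mod_cast (hD i i.2).1)
    (by
      intro i
      obtain ⟨k, h1, h2⟩ := hdiv i i.2
      simp only [h2]
      rw [← Int.isCoprime_iff_gcd_eq_one]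
      apply IsCoprime.mul_left
      · exact ⟨2 * v * k, 1, by linear_combination -h1⟩
      · exact ⟨v, 1, by linear_combination -h1⟩)
    (by
      intro i
      obtain ⟨k, h1, h2⟩ := hdiv i i.2
      simp only [h2]
      exact ⟨u * (u * k) * D i, by ring⟩)
    (by
      intro i j hij
      rcases hij.eq_or_lt with h | h
      · rw [h]
      · exact_mod_cast (hdvd i j h j.2).1)
    (by
      intro i j h
      simp only [Prod.mk.injEq] at h
      have h1 : D i = D j := by exact_mod_cast h.2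
      rcases lt_trichotomy (i : ℕ) j with h2 | h2 | h2
      · exact absurd h1 (hdvd i j h2 j.2).2.ne
      · exact Fin.ext h2
      · exact absurd h1.symm (hdvd j i h2 i.2).2.ne)
  refine ⟨i, j, hij, j.2, ?_⟩
  have hDi : (D i : ℤ) ≠ 0 := by have := (hD i i.2).1; positivity
  obtain ⟨R, hR⟩ := (hdvd i j hij j.2).1
  have hRz : (D j : ℤ) / D i = R := by
    rw [hR]; push_cast
    exact Int.mul_ediv_cancel_left _ hDi
  have hRn : D j / D i = R := by
    rw [hR]; exact Nat.mul_div_cancel_left _ (hD i i.2).1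
  show GoodPair _ _
  rw [hRn]
  simp only [hRz] at h
  convert h using 1
  -- the fixed point
  obtain ⟨k, h1, h2⟩ := hdiv i i.2
  obtain ⟨l, h3, h4⟩ := hdiv j j.2
  rw [h2, h4]
  have h5 : (1 - (R : ℤ)) = v * (2 * u * l - R * (2 * u * k)) := by
    have h6 : (D j : ℤ) = D i * R := by rw [hR]; push_cast; ring
    linear_combination h3 - (R : ℤ) * h1 + h6
  rw [h5, Int.mul_ediv_cancel_left _ hvz]
  ring

/-- chains avoiding the good slopes, if these are not syndetic -/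
theorem line_build (u : ℤ) (v Q : ℕ)
    (hno : ∀ F : Finset ℕ, (∀ t ∈ F, 1 ≤ t ∧ t ≡ 1 [MOD Q]) →
      ∃ m : ℕ, 2 ≤ m ∧ m ≡ 1 [MOD Q] ∧ ∀ t ∈ F, t * m ∉ LineP u v) (k : ℕ) :
    ∃ D : ℕ → ℕ, (∀ i ≤ k, 1 ≤ D i ∧ D i ≡ 1 [MOD Q]) ∧
      ∀ i j, i < j → j ≤ k → D i ∣ D j ∧ D i < D j ∧ D j / D i ≡ 1 [MOD Q] ∧ D j / D i ∉ LineP u v := by
  classical
  induction k with
  | zero =>
    refine ⟨fun _ => 1, fun i _ => ⟨le_rfl, rfl⟩, fun i j hij hj => ?_⟩
    omega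
  | succ k ih =>
    obtain ⟨D, h1, h2⟩ := ih
    have hquot : ∀ i ≤ k, 1 ≤ D k / D i ∧ D k / D i ≡ 1 [MOD Q] := by
      intro i hi
      rcases hi.eq_or_lt with h3 | h3
      · subst h3
        rw [Nat.div_self (h1 i le_rfl).1]
        exact ⟨le_rfl, rfl⟩
      · obtain ⟨h4, h5, h6, -⟩ := h2 i k h3 le_rfl
        exact ⟨Nat.div_pos h5.le (h1 i hi).1, h6⟩
    obtain ⟨m, hm2, hmQ, hm⟩ := hno ((range (k + 1)).image (fun i => D k / D i)) (by
      intro t ht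
      obtain ⟨i, hi, rfl⟩ := mem_image.1 ht
      exact hquot i (Nat.lt_succ_iff.1 (mem_range.1 hi)))
    refine ⟨Function.update D (k + 1) (D k * m), ?_, ?_⟩
    · intro i hi
      rcases hi.eq_or_lt with h3 | h3
      · subst h3
        rw [Function.update_self]
        refine ⟨Nat.mul_pos (h1 k le_rfl).1 (by omega), ?_⟩
        simpa using (h1 k le_rfl).2.mul hmQ
      · rw [Function.update_of_ne (by omega)]
        exact h1 i (by omega)
    · intro i j hij hj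
      rcases hj.eq_or_lt with h3 | h3
      · subst h3
        rw [Function.update_self, Function.update_of_ne (by omega)]
        have hik : i ≤ k := by omega
        have hdv : D i ∣ D k := by
          rcases hik.eq_or_lt with h4 | h4
          · rw [h4]
          · exact (h2 i k h4 le_rfl).1
        have hle : D i ≤ D k := Nat.le_of_dvd (h1 k le_rfl).1 hdv
        have hdiv : D k * m / D i = D k / D i * m := Nat.mul_div_right_comm _ hdv
        refine ⟨Dvd.dvd.mul_right hdv _, ?_, ?_, ?_⟩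
        · have h5 := (h1 k le_rfl).1
          nlinarith
        · rw [hdiv]
          simpa using (hquot i hik).2.mul hmQ
        · rw [hdiv]
          exact hm _ (mem_image.2 ⟨i, mem_range.2 (by omega), rfl⟩)
      · rw [Function.update_of_ne (by omega), Function.update_of_ne (by omega)]
        exact h2 i j hij (by omega)
where
  Nat.mul_div_right_comm {a b : ℕ} (c : ℕ) (h : b ∣ a) : a * c / b = a / b * c := by
    obtain ⟨e, rfl⟩ := h
    rcases Nat.eq_zero_or_pos b with h0 | h0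
    · subst h0; simp
    · rw [Nat.mul_div_cancel_left _ h0, mul_assoc, Nat.mul_div_cancel_left _ h0]

theorem line_synd (u : ℤ) (v Q : ℕ) (hv : 0 < v) (hQ : (2 * u * v : ℤ) ∣ Q) :
    ∃ F : Finset ℕ, (∀ t ∈ F, 1 ≤ t ∧ t ≡ 1 [MOD Q]) ∧
      ∀ m : ℕ, 2 ≤ m → m ≡ 1 [MOD Q] → ∃ t ∈ F, t * m ∈ LineP u v := by
  by_contra hcon
  push Not at hcon
  obtain ⟨D, h1, h2⟩ := line_build u v Q hcon 159
  obtain ⟨i, j, hij, hj, h⟩ := line_chain u v Q hv hQ D (fun i hi => h1 i (by omega))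
    (fun i j hij hj => ⟨(h2 i j hij (by omega)).1, (h2 i j hij (by omega)).2.1⟩)
  exact (h2 i j hij (by omega)).2.2.2 h

theorem line_density (u : ℤ) (v W : ℕ) (hu : u ≠ 0) (hv : 0 < v) (hW : 0 < W) :
    ∃ δ : ℝ, 0 < δ ∧ ∃ X₀ : ℕ, ∀ X : ℕ, X₀ ≤ X → δ * X ≤
      ({d : ℕ | 2 ≤ d ∧ d ≤ X ∧ d ≡ 1 [MOD W] ∧ (v : ℤ) ∣ 1 - d ∧
        GoodPair (u * ((1 - (d : ℤ)) / v)) d}.ncard : ℝ) := by
  classical
  obtain ⟨Q, hQd⟩ : ∃ Q : ℕ, Q = 2 * u.natAbs * v * W := ⟨_, rfl⟩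
  have hQ0 : 0 < Q := by
    rw [hQd]
    have : 0 < u.natAbs := Int.natAbs_pos.2 hu
    positivity
  have hQ : (2 * u * v : ℤ) ∣ Q := by
    rw [hQd]
    have h1 : u ∣ (u.natAbs : ℤ) := Int.dvd_natAbs.2 (dvd_refl u)
    obtain ⟨w, hw⟩ := h1
    push_cast
    exact ⟨w * W, by rw [← Int.natCast_natAbs u, hw]; ring⟩
  obtain ⟨F, hF1, hF2⟩ := line_synd u v Q hv hQ
  obtain ⟨t0, ht0, -⟩ := hF2 (1 + Q) (by omega) (by simp [Nat.ModEq])
  set T : ℕ := F.sup id with hT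
  have hTle : ∀ t ∈ F, t ≤ T := fun t ht => le_sup (f := id) ht
  have hT1 : 1 ≤ T := (hF1 t0 ht0).1.trans (hTle t0 ht0)
  have hF0 : 0 < F.card := card_pos.2 ⟨t0, ht0⟩
  refine ⟨1 / (2 * T * Q * F.card), by positivity, 4 * T * Q, fun X hX => ?_⟩
  set P : Set ℕ := {d : ℕ | 2 ≤ d ∧ d ≤ X ∧ d ≡ 1 [MOD W] ∧ (v : ℤ) ∣ 1 - d ∧
        GoodPair (u * ((1 - (d : ℤ)) / v)) d} with hP
  have hPfin : P.Finite := (Set.finite_Iic X).subset fun d hd => hd.2.1
  -- the multipliers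
  obtain ⟨K, hK⟩ : ∃ K : ℕ, K = X / (T * Q) - 1 := ⟨_, rfl⟩
  have hTQ : 0 < T * Q := by positivity
  have hKX : ∀ k ∈ Icc 1 K, (1 + Q * k) * T ≤ X := by
    intro k hk
    rw [mem_Icc] at hk
    have h1 : k + 1 ≤ X / (T * Q) := by omega
    have h2 : (k + 1) * (T * Q) ≤ X := (Nat.mul_le_mul_right _ h1).trans (Nat.div_mul_le_self _ _)
    have h3 : T ≤ T * Q := Nat.le_mul_of_pos_right _ hQ0
    nlinarith
  have hch : ∀ k : ℕ, ∃ t ∈ F, 1 ≤ k → t * (1 + Q * k) ∈ LineP u v := by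
    intro k
    by_cases hk : 1 ≤ k
    · obtain ⟨t, ht, h⟩ := hF2 (1 + Q * k) (by nlinarith) (by simp [Nat.ModEq])
      exact ⟨t, ht, fun _ => h⟩
    · exact ⟨t0, ht0, fun h => absurd h hk⟩
  choose τ hτ1 hτ2 using hch
  have hmaps : ∀ k ∈ Icc 1 K, (τ k, τ k * (1 + Q * k)) ∈ F ×ˢ hPfin.toFinset := by
    intro k hk
    have hk1 := (mem_Icc.1 hk).1
    rw [mem_product, Set.Finite.mem_toFinset]
    refine ⟨hτ1 k, ?_⟩
    have h1 := hF1 _ (hτ1 k)
    have h2 := hτ2 k hk1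
    have h3 : τ k * (1 + Q * k) ≡ 1 [MOD Q] := by
      have h4 : (1 + Q * k) ≡ 1 [MOD Q] := by simp [Nat.ModEq]
      simpa using h1.2.mul h4
    refine ⟨?_, ?_, ?_, ?_, h2⟩
    · have : 2 ≤ 1 + Q * k := by nlinarith
      nlinarith [h1.1]
    · calc τ k * (1 + Q * k) = (1 + Q * k) * τ k := mul_comm _ _
        _ ≤ (1 + Q * k) * T := Nat.mul_le_mul_left _ (hTle _ (hτ1 k))
        _ ≤ X := hKX k hk
    · exact h3.of_dvd (by rw [hQd]; exact Dvd.intro_left _ rfl)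
    · have h5 : ((τ k * (1 + Q * k) : ℕ) : ℤ) ≡ ((1 : ℕ) : ℤ) [ZMOD Q] := (Int.natCast_modEq_iff).2 h3
      have h6 := Int.modEq_iff_dvd.1 h5
      refine Dvd.dvd.trans ?_ (by exact_mod_cast h6)
      exact (Dvd.intro_left _ rfl : (v : ℤ) ∣ 2 * u * v).trans hQ
  have hcard : K ≤ F.card * P.ncard := by
    have h1 : (Icc 1 K).card ≤ (F ×ˢ hPfin.toFinset).card := by
      apply card_le_card_of_injOn (fun k => (τ k, τ k * (1 + Q * k)))
      · intro k hk
        exact hmaps k hk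
      · intro k _ l _ h
        simp only [Prod.mk.injEq] at h
        obtain ⟨h3, h4⟩ := h
        rw [h3] at h4
        have h5 := Nat.eq_of_mul_eq_mul_left (hF1 _ (hτ1 l)).1 h4
        have h6 : Q * k = Q * l := by omega
        exact Nat.eq_of_mul_eq_mul_left hQ0 h6
    rw [Nat.card_Icc, card_product, ← Set.ncard_eq_toFinset_card P hPfin] at h1
    simpa using h1
  -- numbers
  have h1 : (X : ℝ) / (T * Q) - 2 ≤ K := by
    have h2 : (X : ℝ) / ((T * Q : ℕ) : ℝ) < (X / (T * Q) : ℕ) + 1 := by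
      rw [div_lt_iff₀ (by exact_mod_cast hTQ)]
      have h3 := Nat.lt_mul_div_succ X hTQ
      have h4 : (X : ℝ) < (((T * Q) * (X / (T * Q) + 1) : ℕ) : ℝ) := by exact_mod_cast h3
      push_cast at h4 ⊢
      linarith
    have h5 : (((X / (T * Q) : ℕ) : ℝ)) ≤ (K : ℝ) + 1 := by
      have : X / (T * Q) ≤ K + 1 := by omega
      exact_mod_cast this
    push_cast at h2
    linarith
  have h2 : (K : ℝ) ≤ F.card * P.ncard := by exact_mod_cast hcard
  have hTr : (0 : ℝ) < T := by exact_mod_cast hT1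
  have hQr : (0 : ℝ) < Q := by exact_mod_cast hQ0
  have hFr : (0 : ℝ) < F.card := by exact_mod_cast hF0
  have h3 : (4 : ℝ) ≤ (X : ℝ) / (T * Q) := by
    rw [le_div_iff₀ (by positivity)]
    have : ((4 * T * Q : ℕ) : ℝ) ≤ X := by exact_mod_cast hX
    push_cast at this
    linarith
  have h4 : (X : ℝ) / (T * Q) / 2 ≤ F.card * P.ncard := by linarith
  have h5 : 1 / (2 * T * Q * F.card) * (X : ℝ) = (X : ℝ) / (T * Q) / 2 / F.card := by
    field_simp
  rw [h5, div_le_iff₀ hFr]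
  linarith

end Pool.Agent.W25.IT
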