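import Pool.Agent.H95R2.BG.FinalL
import Pool.Agent.H355R2.MTBridge
import Pool.Agent.W25.IT.Basic

/-!
# 49 admissible linear forms: two of them are simultaneously prime for many values
-/

set_option autoImplicit false

namespace Pool.Agent.W25.IT

open Finset Filter Pool.Agent.H732R3.BigQ Pool.Agent.H95R2.BG.LF Pool.Agent.H355R2.MT

theorem forms49 (A : Fin 49 → ℕ) (B : Fin 49 → ℤ) (hA : ∀ i, 0 < A i)
    (hinj : Function.Injective (fun i => (A i, B i)))
    (hadm : ∀ p : ℕ, p.Prime → ∃ n : ℤ, ∀ i, ¬ (p : ℤ) ∣ A i * n + B i) :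
    ∃ i j, i ≠ j ∧ Big {n : ℕ | (∃ p : ℕ, p.Prime ∧ (A i * n + B i : ℤ) = p) ∧
      (∃ q : ℕ, q.Prime ∧ (A j * n + B j : ℤ) = q)} := by
  classical
  have hprim : ∀ i, ∀ p : ℕ, p.Prime → ¬ ((p : ℤ) ∣ A i ∧ (p : ℤ) ∣ B i) := by
    intro i p hp ⟨h1, h2⟩
    obtain ⟨n, hn⟩ := hadm p hp
    exact hn i (dvd_add (Dvd.dvd.mul_right h1 _) h2)
  have hcop : ∀ i, IsCoprime (A i : ℤ) (B i) := fun i => isCoprime_of_forall_prime (hprim i)
  set N : ℕ := ∑ i, (B i).natAbs + 1 with hN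
  have hbpos : ∀ i, 1 ≤ (A i : ℤ) * N + B i := by
    intro i
    have h1 : (B i).natAbs ≤ ∑ i, (B i).natAbs :=
      Finset.single_le_sum (f := fun i => (B i).natAbs) (fun _ _ => Nat.zero_le _) (mem_univ i)
    have h2 : (1 : ℤ) ≤ A i := by exact_mod_cast hA i
    have h3 : ((B i).natAbs : ℤ) + 1 ≤ N := by
      have : (B i).natAbs + 1 ≤ N := by omega
      exact_mod_cast this
    have h4 : -((B i).natAbs : ℤ) ≤ B i := by
      have := neg_abs_le (B i)
      rwa [Int.abs_eq_natAbs] at this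
    nlinarith
  set b : Fin 49 → ℕ := fun i => ((A i : ℤ) * N + B i).toNat with hb
  have hbz : ∀ i, (b i : ℤ) = (A i : ℤ) * N + B i := by
    intro i
    rw [hb]
    exact Int.toNat_of_nonneg (by have := hbpos i; omega)
  have hnp : ∀ i j, i ≠ j → A i * b j ≠ A j * b i := by
    intro i j hij heq
    have h1 : (A i : ℤ) * b j = (A j : ℤ) * b i := by exact_mod_cast heq
    rw [hbz, hbz] at h1
    have h2 : (A i : ℤ) * B j = A j * B i := by linarith
    have h3 : (A i : ℤ) ∣ A j := (hcop i).dvd_of_dvd_mul_right (Dvd.intro _ h2)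
    have h4 : (A j : ℤ) ∣ A i := (hcop j).dvd_of_dvd_mul_right (Dvd.intro _ h2.symm)
    have h5 : A i = A j :=
      Nat.dvd_antisymm (Int.natCast_dvd_natCast.1 h3) (Int.natCast_dvd_natCast.1 h4)
    have h6 : B i = B j := by
      rw [h5] at h2
      have h7 : (A j : ℤ) ≠ 0 := by exact_mod_cast (hA j).ne'
      exact (mul_left_cancel₀ h7 h2).symm
    exact hij (hinj (by simp [h5, h6]))
  have hadm' : ∀ p : ℕ, p.Prime → ∃ a : ℕ, ∀ i, ¬ p ∣ A i * a + b i := by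
    intro p hp
    obtain ⟨n, hn⟩ := hadm p hp
    have hp0 : (p : ℤ) ≠ 0 := by exact_mod_cast hp.ne_zero
    refine ⟨((n - N) % p).toNat, fun i hdvd => hn i ?_⟩
    have h1 : (p : ℤ) ∣ (A i : ℤ) * (((n - N) % p).toNat : ℤ) + b i := by exact_mod_cast hdvd
    rw [Int.toNat_of_nonneg (Int.emod_nonneg _ hp0), hbz] at h1
    have h3 : (p : ℤ) ∣ (n - N) - (n - N) % p := Int.dvd_self_sub_emod
    have h4 := dvd_add h1 (Dvd.dvd.mul_left h3 (A i : ℤ))
    have h5 : (A i : ℤ) * ((n - N) % p) + ((A i : ℤ) * N + B i) +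
        (A i : ℤ) * ((n - N) - (n - N) % p) = (A i : ℤ) * n + B i := by ring
    rwa [h5] at h4
  have hcount := dhl49L A b ⟨fun i => hA i, hnp, hadm'⟩
  obtain ⟨⟨i, j⟩, hij⟩ := big_of_cover
    (fun ij : Fin 49 × Fin 49 => {n : ℕ | ij.1 ≠ ij.2 ∧ (A ij.1 * n + b ij.1).Prime ∧
        (A ij.2 * n + b ij.2).Prime})
    {n : ℕ | ∃ i j, i ≠ j ∧ (A i * n + b i).Prime ∧ (A j * n + b j).Prime}
    (by
      intro η hη
      filter_upwards [hcount η hη, eventually_ge_atTop (0 : ℝ)] with x hx hx0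
      refine hx.trans ?_
      rw [← Set.ncard_coe_finset]
      have hsub : ((goodL A b x : Finset ℕ) : Set ℕ) ⊆
          {n : ℕ | n ∈ {n : ℕ | ∃ i j, i ≠ j ∧ (A i * n + b i).Prime ∧ (A j * n + b j).Prime} ∧
            (n : ℝ) ≤ x} := by
        intro n hn
        rw [Finset.mem_coe, goodL, Finset.mem_filter, Finset.mem_Icc] at hn
        exact ⟨hn.2, (Nat.cast_le.2 hn.1.2).trans (Nat.floor_le hx0)⟩
      exact_mod_cast Set.ncard_le_ncard hsub (fin_le _ x))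
    (by
      rintro n ⟨i, j, h1, h2, h3⟩
      exact Set.mem_iUnion.2 ⟨(i, j), h1, h2, h3⟩)
  have hne : i ≠ j := by
    obtain ⟨n, hn⟩ := hij.infinite.nonempty
    exact hn.1
  refine ⟨i, j, hne, ?_⟩
  refine hij.affine 1 N le_rfl (fun n => n + N) (fun n _ => by push_cast; ring) ?_
  rintro n ⟨_, h2, h3⟩
  simp only at h2 h3
  refine ⟨⟨_, h2, ?_⟩, ⟨_, h3, ?_⟩⟩
  · push_cast
    rw [hbz]; ring
  · push_cast
    rw [hbz]; ring

end Pool.Agent.W25.IT
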