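import Pool.Agent.H732R3.QuarterB
import Pool.Agent.W59.GB.Mult
import Pool.Agent.W25.IT.Chain

/-!
# Iterates of the rational map `x ↦ (b x + c) / a`
-/

set_option autoImplicit false

namespace Pool.Agent.W25.IT.Rat

open Finset Filter Pool.Agent.H732R3.BigQ Pool.Agent.H355R2.MT Pool.Agent.W25.IT

/-- the right-hand side of the `j`-th iterated equation -/
def cj (a b c : ℤ) (j : ℕ) : ℤ := c * ∑ i ∈ range j, a ^ i * b ^ (j - 1 - i)

theorem cj_zero (a b c : ℤ) : cj a b c 0 = 0 := by simp [cj]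

theorem cj_succ (a b c : ℤ) (j : ℕ) : cj a b c (j + 1) = b * cj a b c j + a ^ j * c := by
  unfold cj
  rw [Finset.sum_range_succ]
  have h1 : ∑ i ∈ range j, a ^ i * b ^ (j + 1 - 1 - i) = b * ∑ i ∈ range j, a ^ i * b ^ (j - 1 - i) := by
    rw [Finset.mul_sum]
    apply Finset.sum_congr rfl
    intro i hi
    have h2 := Finset.mem_range.1 hi
    have h3 : j + 1 - 1 - i = (j - 1 - i) + 1 := by omega
    rw [h3, pow_succ]
    ring
  rw [h1]
  have h4 : j + 1 - 1 - j = 0 := by omega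
  rw [h4, pow_zero]
  ring

theorem cj_pos (a b c : ℤ) (ha : 1 ≤ a) (hb : 1 ≤ b) (hc : c ≠ 0) {j : ℕ} (hj : 1 ≤ j) :
    cj a b c j ≠ 0 := by
  unfold cj
  apply mul_ne_zero hc
  have : 0 < ∑ i ∈ range j, a ^ i * b ^ (j - 1 - i) := by
    apply Finset.sum_pos
    · intro i _; positivity
    · exact ⟨0, Finset.mem_range.2 hj⟩
  exact this.ne'

theorem cj_mod_a {a b c p : ℤ} (hp : p ∣ a) (j : ℕ) : p ∣ cj a b c (j + 1) - b ^ j * c := by
  induction j with
  | zero => simp [cj]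
  | succ j ih =>
    rw [cj_succ]
    have h1 : b * cj a b c (j + 1) + a ^ (j + 1) * c - b ^ (j + 1) * c =
        b * (cj a b c (j + 1) - b ^ j * c) + a * (a ^ j * c) := by ring
    rw [h1]
    exact dvd_add (Dvd.dvd.mul_left ih _) (Dvd.dvd.mul_right hp _)

theorem cj_mod_b {a b c p : ℤ} (hp : p ∣ b) (j : ℕ) : p ∣ cj a b c (j + 1) - a ^ j * c := by
  rw [cj_succ]
  have h1 : b * cj a b c j + a ^ j * c - a ^ j * c = b * cj a b c j := by ring
  rw [h1]
  exact Dvd.dvd.mul_right hp _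

theorem cj_coprime {a b c : ℤ} (hab : IsCoprime a b) (hac : IsCoprime a c) (hbc : IsCoprime b c)
    {j : ℕ} (hj : 1 ≤ j) : IsCoprime (a ^ j) (cj a b c j) ∧ IsCoprime (b ^ j) (cj a b c j) := by
  obtain ⟨i, rfl⟩ : ∃ i, j = i + 1 := ⟨j - 1, by omega⟩
  constructor
  · apply isCoprime_of_forall_prime
    rintro p hp ⟨h1, h2⟩
    have hpp := Nat.prime_iff_prime_int.1 hp
    have h3 := hpp.dvd_of_dvd_pow h1
    have h4 := dvd_sub h2 (cj_mod_a (b := b) (c := c) h3 i)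
    rw [sub_sub_cancel] at h4
    rcases hpp.dvd_or_dvd h4 with h5 | h5
    · exact hpp.not_isUnit (hab.isUnit_of_dvd' h3 (hpp.dvd_of_dvd_pow h5))
    · exact hpp.not_isUnit (hac.isUnit_of_dvd' h3 h5)
  · apply isCoprime_of_forall_prime
    rintro p hp ⟨h1, h2⟩
    have hpp := Nat.prime_iff_prime_int.1 hp
    have h3 := hpp.dvd_of_dvd_pow h1
    have h4 := dvd_sub h2 (cj_mod_b (a := a) (c := c) h3 i)
    rw [sub_sub_cancel] at h4
    rcases hpp.dvd_or_dvd h4 with h5 | h5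
    · exact hpp.not_isUnit (hab.isUnit_of_dvd' (hpp.dvd_of_dvd_pow h5) h3)
    · exact hpp.not_isUnit (hbc.isUnit_of_dvd' h3 h5)

theorem cj_parity {a b c : ℤ} (h : ¬ (Odd a ∧ Odd b ∧ Odd c)) {j : ℕ} (hj : 1 ≤ j) :
    ¬ (Odd (a ^ j) ∧ Odd (b ^ j) ∧ Odd (cj a b c j)) := by
  rintro ⟨h1, h2, h3⟩
  have h4 : Odd a := (Int.odd_pow.1 h1).resolve_right (by omega)
  have h5 : Odd b := (Int.odd_pow.1 h2).resolve_right (by omega)
  apply h
  refine ⟨h4, h5, ?_⟩
  unfold cj at h3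
  exact (Int.odd_mul.1 h3).1

/-- the equation `a^j p - b^j q = c_j` satisfies the hypotheses and the conclusion of the question -/
def GoodEq (a b c : ℤ) (j : ℕ) : Prop :=
  {pq : ℕ × ℕ | pq.1.Prime ∧ pq.2.Prime ∧
      a ^ j * pq.1 - b ^ j * pq.2 = c * ∑ i ∈ range j, a ^ i * b ^ (j - 1 - i)}.Infinite ∧
    ∀ η : ℝ, 0 < η → ∃ᶠ x : ℝ in atTop, x ^ (1 - η) ≤
      ({q : ℕ | (q.Prime ∧ ∃ p : ℕ, p.Prime ∧
        a ^ j * p - b ^ j * q = c * ∑ i ∈ range j, a ^ i * b ^ (j - 1 - i)) ∧ (q : ℝ) ≤ x}.ncard : ℝ)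

theorem goodEq_of_big {a b c : ℤ} {j : ℕ}
    (h : Big {q : ℕ | q.Prime ∧ ∃ p : ℕ, p.Prime ∧ a ^ j * p - b ^ j * q = cj a b c j}) :
    GoodEq a b c j := by
  refine ⟨?_, h⟩
  apply Set.Infinite.of_image Prod.snd
  refine h.infinite.mono ?_
  rintro q ⟨hq, p, hp, hpq⟩
  exact ⟨(p, q), ⟨hp, hq, hpq⟩, rfl⟩

/-- integral orbits of any length -/
theorem exists_beta (a b c : ℤ) (ha : a ≠ 0) (hab : IsCoprime a b) (J : ℕ) :
    ∃ β : ℕ → ℤ, ∀ i < J, a * β (i + 1) = b * β i + c := by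
  induction J with
  | zero => exact ⟨fun _ => 0, fun i hi => absurd hi (by omega)⟩
  | succ J ih =>
    obtain ⟨β, hβ⟩ := ih
    have hcop : IsCoprime a (b ^ (J + 1)) := hab.pow_right
    obtain ⟨u, v, huv⟩ := hcop
    -- `b (β J + b^J s) + c ≡ 0 mod a`
    set s : ℤ := -(b * β J + c) * v with hs
    have hdiv : a ∣ b * (β J + b ^ J * s) + c := by
      refine ⟨(b * β J + c) * u, ?_⟩
      rw [hs]
      have h1 : v * b ^ (J + 1) = 1 - u * a := by linarith
      have h2 : b * (β J + b ^ J * (-(b * β J + c) * v)) + c =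
          (b * β J + c) - (b * β J + c) * (v * b ^ (J + 1)) := by ring
      rw [h2, h1]
      ring
    obtain ⟨y, hy⟩ := hdiv
    refine ⟨fun i => if i ≤ J then β i + a ^ (J - i) * b ^ i * s else y, fun i hi => ?_⟩
    rcases (Nat.lt_succ_iff.1 hi).eq_or_lt with h1 | h1
    · subst h1
      simp only [le_refl, if_true, Nat.sub_self, pow_zero, one_mul]
      rw [if_neg (by omega), ← hy]
    · simp only
      rw [if_pos (show i + 1 ≤ J by omega), if_pos (show i ≤ J by omega)]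
      have h2 : J - i = (J - (i + 1)) + 1 := by omega
      rw [h2, pow_succ a, pow_succ b]
      linear_combination hβ i h1

/-- the forms -/
def LL (a b : ℤ) (β : ℕ → ℤ) (J : ℕ) (i : ℕ) (n : ℤ) : ℤ := a ^ (J - i) * b ^ i * n + β i

theorem LL_step {a b c : ℤ} {β : ℕ → ℤ} {J : ℕ} (hβ : ∀ i < J, a * β (i + 1) = b * β i + c)
    (n : ℤ) {i : ℕ} (hi : i < J) : a * LL a b β J (i + 1) n = b * LL a b β J i n + c := by
  unfold LL
  have h2 : J - i = (J - (i + 1)) + 1 := by omega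
  rw [h2, pow_succ a, pow_succ b]
  linear_combination hβ i hi

theorem LL_iter {a b c : ℤ} {β : ℕ → ℤ} {J : ℕ} (hβ : ∀ i < J, a * β (i + 1) = b * β i + c)
    (n : ℤ) (i m : ℕ) (h : i + m ≤ J) :
    a ^ m * LL a b β J (i + m) n = b ^ m * LL a b β J i n + cj a b c m := by
  induction m with
  | zero => simp [cj_zero]
  | succ m ih =>
    have h1 := ih (by omega)
    have h2 := LL_step hβ n (show i + m < J by omega)
    rw [cj_succ, show i + (m + 1) = i + m + 1 by ring, pow_succ a, pow_succ b]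
    linear_combination a ^ m * h2 + b * h1

theorem beta_iter {a b c : ℤ} {β : ℕ → ℤ} {J : ℕ} (hβ : ∀ i < J, a * β (i + 1) = b * β i + c)
    (i m : ℕ) (h : i + m ≤ J) : a ^ m * β (i + m) = b ^ m * β i + cj a b c m := by
  have := LL_iter hβ 0 i m h
  simpa [LL] using this

/-- from two forms to an equation -/
theorem eq_of_forms {a b c : ℤ} (ha : 1 ≤ a) (hb : 1 ≤ b) {β : ℕ → ℤ} {J : ℕ}
    (hβ : ∀ i < J, a * β (i + 1) = b * β i + c) {i k : ℕ} (hik : i < k) (hk : k ≤ J)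
    (h : Big {n : ℕ | (∃ p : ℕ, p.Prime ∧ a ^ (J - i) * b ^ i * n + β i = p) ∧
      ∃ q : ℕ, q.Prime ∧ a ^ (J - k) * b ^ k * n + β k = q}) : GoodEq a b c (k - i) := by
  apply goodEq_of_big
  have hD : (0 : ℤ) < a ^ (J - i) * b ^ i := by positivity
  have hDn : (((a ^ (J - i) * b ^ i).toNat : ℕ) : ℤ) = a ^ (J - i) * b ^ i := Int.toNat_of_nonneg hD.le
  refine Big.affine h (a ^ (J - i) * b ^ i).toNat (β i) (by omega)
    (fun n => (a ^ (J - i) * b ^ i * n + β i).toNat) ?_ ?_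
  · rintro n ⟨⟨p, -, hp⟩, -⟩
    rw [hDn]
    exact Int.toNat_of_nonneg (by rw [hp]; positivity)
  · rintro n ⟨⟨p, hpp, hp⟩, q, hq, hqe⟩
    have h1 : (a ^ (J - i) * b ^ i * n + β i).toNat = p := by rw [hp]; simp
    show ((a ^ (J - i) * b ^ i * n + β i).toNat).Prime ∧ _
    rw [h1]
    refine ⟨hpp, q, hq, ?_⟩
    have h2 := LL_iter hβ (n : ℤ) i (k - i) (by omega)
    rw [show i + (k - i) = k by omega] at h2
    unfold LL at h2
    rw [← hqe, ← hp]
    linear_combination h2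

/-- injectivity -/
theorem forms_inj {a b c : ℤ} (ha : 1 ≤ a) (hb : 1 ≤ b) (hc : c ≠ 0) (hab : IsCoprime a b)
    {β : ℕ → ℤ} {J : ℕ} (hβ : ∀ i < J, a * β (i + 1) = b * β i + c) {i k : ℕ} (hi : i ≤ J) (hk : k ≤ J)
    (h1 : a ^ (J - i) * b ^ i = a ^ (J - k) * b ^ k) (h2 : β i = β k) : i = k := by
  wlog hik : i ≤ k generalizing i k with H
  · exact (H hk hi h1.symm h2.symm (by omega)).symm
  by_contra hne
  have hlt : i < k := by omega
  obtain ⟨m, rfl⟩ : ∃ m, k = i + m := ⟨k - i, by omega⟩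
  have h3 := beta_iter hβ i m hk
  have h4 : a ^ m * (a ^ (J - (i + m)) * b ^ i) = b ^ m * (a ^ (J - (i + m)) * b ^ i) := by
    have e1 : J - i = m + (J - (i + m)) := by omega
    rw [e1, pow_add, pow_add] at h1
    linear_combination h1
  have hpos : (a ^ (J - (i + m)) * b ^ i : ℤ) ≠ 0 := by positivity
  have h5 : a ^ m = b ^ m := mul_right_cancel₀ hpos h4
  rw [← h2, h5] at h3
  have h6 := cj_pos a b c ha hb hc (show 1 ≤ m by omega)
  apply h6
  linarith

/-- coefficients are coprime in the middle of the orbit -/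
theorem forms_cop {a b c : ℤ} (hac : IsCoprime a c) (hbc : IsCoprime b c)
    {β : ℕ → ℤ} {J : ℕ} (hβ : ∀ i < J, a * β (i + 1) = b * β i + c) {i : ℕ} (hi : 1 ≤ i) (hi' : i < J)
    {p : ℕ} (hp : p.Prime) (h1 : (p : ℤ) ∣ a * b) : ¬ (p : ℤ) ∣ β i := by
  have hpp := Nat.prime_iff_prime_int.1 hp
  intro h2
  rcases hpp.dvd_or_dvd h1 with h3 | h3
  · have h4 := hβ i hi'
    have h5 : (p : ℤ) ∣ c := by
      have h6 : c = a * β (i + 1) - b * β i := by linarith
      rw [h6]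
      exact dvd_sub (Dvd.dvd.mul_right h3 _) (Dvd.dvd.mul_left h2 _)
    exact hpp.not_isUnit (hac.isUnit_of_dvd' h3 h5)
  · obtain ⟨k, rfl⟩ : ∃ k, i = k + 1 := ⟨i - 1, by omega⟩
    have h4 := hβ k (by omega)
    have h5 : (p : ℤ) ∣ c := by
      have h6 : c = a * β (k + 1) - b * β k := by linarith
      rw [h6]
      exact dvd_sub (Dvd.dvd.mul_left h2 _) (Dvd.dvd.mul_right h3 _)
    exact hpp.not_isUnit (hbc.isUnit_of_dvd' h3 h5)

/-- the first form takes every value modulo a prime not dividing `a` -/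
theorem hit {a b : ℤ} {β : ℕ → ℤ} {J : ℕ} {p : ℕ} (hp : p.Prime) (hpa : ¬ (p : ℤ) ∣ a) (y : ℤ) :
    ∃ n : ℤ, (p : ℤ) ∣ LL a b β J 0 n - y := by
  have hc : IsCoprime (a ^ J) (p : ℤ) := by
    apply IsCoprime.pow_left
    apply isCoprime_of_forall_prime
    rintro r hr ⟨h1, h2⟩
    have h3 := (Nat.prime_dvd_prime_iff_eq hr hp).1 (Int.natCast_dvd_natCast.1 h2)
    subst h3
    exact hpa h1
  obtain ⟨u, v, huv⟩ := hc
  refine ⟨(y - β 0) * u, (β 0 - y) * v, ?_⟩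
  unfold LL
  simp only [Nat.sub_zero, pow_zero, mul_one]
  linear_combination (y - β 0) * huv

/-- the forms have no fixed prime divisor, if the exponents miss a class modulo the bad primes -/
theorem rat_admissible {ι : Type*} {a b c : ℤ} (hab : IsCoprime a b) (hac : IsCoprime a c)
    (hbc : IsCoprime b c) (hpar : ¬ (Odd a ∧ Odd b ∧ Odd c)) {β : ℕ → ℤ} {J : ℕ}
    (hβ : ∀ i < J, a * β (i + 1) = b * β i + c) (e : ι → ℕ) (he : ∀ i, 1 ≤ e i ∧ e i < J)
    {p : ℕ} (hp : p.Prime)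
    (hE : 3 ≤ p → (p : ℤ) ∣ a - b → ¬ (p : ℤ) ∣ c →
      ∃ n : ℤ, ∀ i, ¬ (p : ℤ) ∣ a ^ (J - e i) * b ^ e i * n + β (e i)) :
    ∃ n : ℤ, ∀ i, ¬ (p : ℤ) ∣ a ^ (J - e i) * b ^ e i * n + β (e i) := by
  have hpp := Nat.prime_iff_prime_int.1 hp
  by_cases hpab : (p : ℤ) ∣ a * b
  · refine ⟨0, fun i hi => forms_cop hac hbc hβ (he i).1 (he i).2 hp hpab ?_⟩
    simpa using hi
  have hpa : ¬ (p : ℤ) ∣ a := fun h => hpab (Dvd.dvd.mul_right h _)
  have hpb : ¬ (p : ℤ) ∣ b := fun h => hpab (Dvd.dvd.mul_left h _)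
  by_cases hpc : (p : ℤ) ∣ c
  · obtain ⟨n, hn⟩ := hit (b := b) (β := β) (J := J) hp hpa 1
    refine ⟨n, fun i hi => ?_⟩
    have h1 : ∀ k, k ≤ J → ¬ (p : ℤ) ∣ LL a b β J k n := by
      intro k
      induction k with
      | zero =>
        intro _ h
        have := dvd_sub h hn
        rw [sub_sub_cancel] at this
        exact hpp.not_isUnit (isUnit_of_dvd_one this)
      | succ k ih =>
        intro hk h
        have h2 := LL_step hβ n (show k < J by omega)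
        have h3 : (p : ℤ) ∣ b * LL a b β J k n := by
          have h4 : b * LL a b β J k n = a * LL a b β J (k + 1) n - c := by linarith
          rw [h4]
          exact dvd_sub (Dvd.dvd.mul_left h _) hpc
        rcases hpp.dvd_or_dvd h3 with h4 | h4
        · exact hpb h4
        · exact ih (by omega) h4
    exact h1 (e i) (he i).2.le hi
  by_cases hp1 : (p : ℤ) ∣ a - b
  · apply hE _ hp1 hpc
    have h3 := hp.two_le
    by_contra hlt
    have hp2 : p = 2 := by omega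
    subst hp2
    apply hpar
    rw [← Int.not_even_iff_odd, ← Int.not_even_iff_odd, ← Int.not_even_iff_odd]
    refine ⟨fun h => hpa h.two_dvd, fun h => hpb h.two_dvd, fun h => hpc h.two_dvd⟩
  · -- the fixed point modulo `p`
    have hc : IsCoprime (a - b) (p : ℤ) := by
      apply isCoprime_of_forall_prime
      rintro r hr ⟨h1, h2⟩
      have h3 := (Nat.prime_dvd_prime_iff_eq hr hp).1 (Int.natCast_dvd_natCast.1 h2)
      subst h3
      exact hp1 h1
    obtain ⟨u, v, huv⟩ := hc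
    obtain ⟨n, hn⟩ := hit (b := b) (β := β) (J := J) hp hpa (c * u)
    refine ⟨n, fun i hi => ?_⟩
    have h1 : ∀ k, k ≤ J → (p : ℤ) ∣ (a - b) * LL a b β J k n - c := by
      intro k
      induction k with
      | zero =>
        intro _
        obtain ⟨w, hw⟩ := hn
        refine ⟨(a - b) * w - c * v, ?_⟩
        linear_combination (a - b) * hw + c * huv
      | succ k ih =>
        intro hk
        have h2 := LL_step hβ n (show k < J by omega)
        have h3 := ih (by omega)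
        have h4 : a * ((a - b) * LL a b β J (k + 1) n - c) = b * ((a - b) * LL a b β J k n - c) := by
          linear_combination (a - b) * h2
        have h5 : (p : ℤ) ∣ a * ((a - b) * LL a b β J (k + 1) n - c) := by
          rw [h4]; exact Dvd.dvd.mul_left h3 _
        exact (hpp.dvd_or_dvd h5).resolve_left hpa
    have h2 := h1 (e i) (he i).2.le
    apply hpc
    have h3 : (p : ℤ) ∣ (a - b) * LL a b β J (e i) n := Dvd.dvd.mul_left hi _
    have h4 := dvd_sub h3 h2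
    rwa [sub_sub_cancel] at h4

/-- exponents missing a class -/
theorem rat_miss {ι : Type*} {a b c : ℤ} {β : ℕ → ℤ} {J : ℕ}
    (hβ : ∀ i < J, a * β (i + 1) = b * β i + c) (e : ι → ℕ) (he : ∀ i, e i ≤ J) {p : ℕ} (hp : p.Prime)
    (hpa : ¬ (p : ℤ) ∣ a) (hp1 : (p : ℤ) ∣ a - b) (hpc : ¬ (p : ℤ) ∣ c) (r : ℕ)
    (hr : ∀ i, ¬ e i ≡ r [MOD p]) :
    ∃ n : ℤ, ∀ i, ¬ (p : ℤ) ∣ a ^ (J - e i) * b ^ e i * n + β (e i) := by
  have hpp := Nat.prime_iff_prime_int.1 hp
  have hca : IsCoprime a (p : ℤ) := by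
    apply isCoprime_of_forall_prime
    rintro s hs ⟨h1, h2⟩
    have h3 := (Nat.prime_dvd_prime_iff_eq hs hp).1 (Int.natCast_dvd_natCast.1 h2)
    subst h3
    exact hpa h1
  obtain ⟨u, v, huv⟩ := hca
  obtain ⟨n, hn⟩ := hit (b := b) (β := β) (J := J) hp hpa (-(r * c) * u)
  refine ⟨n, fun i hi => ?_⟩
  have h1 : ∀ k : ℕ, k ≤ J → (p : ℤ) ∣ a * LL a b β J k n - (k - r) * c := by
    intro k
    induction k with
    | zero =>
      intro _
      obtain ⟨w, hw⟩ := hn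
      refine ⟨a * w + r * c * v, ?_⟩
      push_cast
      linear_combination a * hw + (-(r : ℤ) * c) * huv
    | succ k ih =>
      intro hk
      have h2 := LL_step hβ n (show k < J by omega)
      have h3 := ih (by omega)
      have h4 : a * LL a b β J (k + 1) n - (((k + 1 : ℕ) : ℤ) - r) * c =
          (a * LL a b β J k n - (k - r) * c) - (a - b) * LL a b β J k n := by
        push_cast
        linear_combination h2
      rw [h4]
      exact dvd_sub h3 (Dvd.dvd.mul_right hp1 _)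
  have h2 := h1 (e i) (he i)
  have h3 : (p : ℤ) ∣ a * LL a b β J (e i) n := Dvd.dvd.mul_left hi _
  have h4 := dvd_sub h3 h2
  rw [sub_sub_cancel] at h4
  rcases hpp.dvd_or_dvd h4 with h5 | h5
  · apply hr i
    have h6 : (r : ℤ) ≡ e i [ZMOD p] := Int.modEq_iff_dvd.2 h5
    exact ((Int.natCast_modEq_iff).1 h6).symm
  · exact hpc h5

theorem bad_not_dvd {a b : ℤ} (hab : IsCoprime a b) {p : ℕ} (hp : p.Prime) (h : (p : ℤ) ∣ a - b) :
    ¬ (p : ℤ) ∣ a ∧ ¬ (p : ℤ) ∣ b := by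
  have hpp := Nat.prime_iff_prime_int.1 hp
  constructor
  · intro h1
    have h2 := dvd_sub h1 h
    rw [sub_sub_cancel] at h2
    exact hpp.not_isUnit (hab.isUnit_of_dvd' h1 h2)
  · intro h1
    have h2 := dvd_add h h1
    rw [sub_add_cancel] at h2
    exact hpp.not_isUnit (hab.isUnit_of_dvd' h2 h1)

/-- 49 exponents -/
theorem rat49 (a b c : ℤ) (ha : 1 ≤ a) (hb : 1 ≤ b) (hc : c ≠ 0) (hab : IsCoprime a b)
    (hac : IsCoprime a c) (hbc : IsCoprime b c) (hpar : ¬ (Odd a ∧ Odd b ∧ Odd c))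
    (E : Finset ℕ) (hE : 49 ≤ E.card)
    (hcls : ∀ p : ℕ, p.Prime → 3 ≤ p → p ≤ 47 → (p : ℤ) ∣ a - b → ¬ (p : ℤ) ∣ c →
      ∃ r : ℕ, ∀ e ∈ E, ¬ e ≡ r [MOD p]) :
    ∃ e ∈ E, ∃ e' ∈ E, e < e' ∧ GoodEq a b c (e' - e) := by
  classical
  obtain ⟨S, hSE, hS⟩ := exists_subset_card_eq hE
  obtain ⟨J, hJ⟩ : ∃ J : ℕ, ∀ e ∈ E, e + 1 < J :=
    ⟨E.sup id + 2, fun e he => by have := le_sup (f := id) he; simp only [id] at this; omega⟩
  obtain ⟨β, hβ⟩ := exists_beta a b c (by omega) hab J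
  have hSJ : ∀ i : S, 1 ≤ (i : ℕ) + 1 ∧ (i : ℕ) + 1 < J := fun i => ⟨by omega, hJ _ (hSE i.2)⟩
  obtain ⟨i, -, j, -, hij, h⟩ := forms49_finset (ι := S) univ (by simpa using hS)
    (fun i => a ^ (J - ((i : ℕ) + 1)) * b ^ ((i : ℕ) + 1)) (fun i => β ((i : ℕ) + 1))
    (fun i => by
      have : (0 : ℤ) < a ^ (J - ((i : ℕ) + 1)) * b ^ ((i : ℕ) + 1) := by positivity
      omega)
    (fun i => by
      by_contra hne
      obtain ⟨r, hr, hrd⟩ := Nat.exists_prime_and_dvd hne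
      have h1 : (r : ℤ) ∣ (Int.gcd (β ((i : ℕ) + 1)) (a ^ (J - ((i : ℕ) + 1)) * b ^ ((i : ℕ) + 1)) : ℤ) :=
        Int.natCast_dvd_natCast.2 hrd
      have hrr := Nat.prime_iff_prime_int.1 hr
      refine forms_cop hac hbc hβ (hSJ i).1 (hSJ i).2 hr ?_ (h1.trans (Int.gcd_dvd_left _ _))
      rcases hrr.dvd_or_dvd (h1.trans (Int.gcd_dvd_right _ _)) with h2 | h2
      · exact Dvd.dvd.mul_right (hrr.dvd_of_dvd_pow h2) _
      · exact Dvd.dvd.mul_left (hrr.dvd_of_dvd_pow h2) _)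
    (by
      intro i j h
      simp only [Prod.mk.injEq] at h
      have := forms_inj ha hb hc hab hβ (hSJ i).2.le (hSJ j).2.le h.1 h.2
      exact Subtype.ext (by omega))
    (by
      intro p hp hp47
      obtain ⟨n, hn⟩ := rat_admissible hab hac hbc hpar hβ (fun i : S => (i : ℕ) + 1) hSJ hp (by
        intro hp3 hp1 hpc
        obtain ⟨r, hr⟩ := hcls p hp hp3 hp47 hp1 hpc
        refine rat_miss hβ (fun i : S => (i : ℕ) + 1) (fun i => (hSJ i).2.le) hp
          (bad_not_dvd hab hp hp1).1 hp1 hpc (r + 1) (fun i h => hr i (hSE i.2) ?_)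
        exact Nat.ModEq.add_right_cancel' 1 h)
      exact ⟨n, fun i _ => hn i⟩)
  have key : ∀ i j : S, (i : ℕ) < j →
      Big {n : ℕ | (∃ p : ℕ, p.Prime ∧ a ^ (J - ((i : ℕ) + 1)) * b ^ ((i : ℕ) + 1) * n + β ((i : ℕ) + 1) = p) ∧
      (∃ q : ℕ, q.Prime ∧ a ^ (J - ((j : ℕ) + 1)) * b ^ ((j : ℕ) + 1) * n + β ((j : ℕ) + 1) = q)} →
      ∃ e ∈ E, ∃ e' ∈ E, e < e' ∧ GoodEq a b c (e' - e) := by
    intro i j hlt hB
    refine ⟨i, hSE i.2, j, hSE j.2, hlt, ?_⟩
    have h1 := eq_of_forms ha hb hβ (show (i : ℕ) + 1 < (j : ℕ) + 1 by omega) (hSJ j).2.le hB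
    rwa [Nat.add_sub_add_right] at h1
  have hne : (i : ℕ) ≠ j := fun h => hij (Subtype.ext h)
  rcases lt_or_gt_of_ne hne with h3 | h3
  · exact key i j h3 h
  · exact key j i h3 (h.mono fun n hn => ⟨hn.2, hn.1⟩)

theorem rat120 (a b c : ℤ) (ha : 1 ≤ a) (hb : 1 ≤ b) (hc : c ≠ 0) (hab : IsCoprime a b)
    (hac : IsCoprime a c) (hbc : IsCoprime b c) (hpar : ¬ (Odd a ∧ Odd b ∧ Odd c)) :
    ∃ j : ℕ, 1 ≤ j ∧ j ≤ 120 ∧ GoodEq a b c j := by
  obtain ⟨e, he, e', he', hlt, h⟩ := rat49 a b c ha hb hc hab hac hbc hpar E49 E49_card.ge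
    (fun p hp h3 h47 _ _ => E49_cls p hp h3 h47)
  have := E49_le e' he'
  exact ⟨e' - e, by omega, by omega, h⟩

/-- among 319 primitive forms two are simultaneously prime -/
theorem any319 (D b : Fin 319 → ℤ) (hD : ∀ i, 1 ≤ D i) (hcop : ∀ i, Int.gcd (b i) (D i) = 1)
    (hinj : Function.Injective (fun i => (D i, b i))) :
    ∃ i j, i ≠ j ∧ Big {n : ℕ | (∃ p : ℕ, p.Prime ∧ D i * n + b i = p) ∧
      (∃ q : ℕ, q.Prime ∧ D j * n + b j = q)} := by
  classical
  obtain ⟨S, -, hS, hadm⟩ := drop_list D b hcop [2, 3, 5, 7, 11, 13, 17, 19, 23, 29, 31, 37, 41, 43, 47]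
    (by
      intro p hp
      fin_cases hp <;> norm_num) univ
  have hS49 : S.card = 49 := by
    rw [hS, card_univ, Fintype.card_fin]
    rfl
  obtain ⟨i, -, j, -, hij, h⟩ := forms49_finset S hS49 D b hD hcop hinj
    (by
      intro p hp hp47
      apply hadm
      interval_cases p <;> first
        | exact absurd hp (by decide)
        | simp)
  exact ⟨i, j, hij, h⟩

end Pool.Agent.W25.IT.Rat
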