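import Pool.Agent.H732R3.QuarterB
import Pool.Agent.W59.GB.Mult
import Pool.Agent.W25.IT.Basic

/-!
# Good iterates of `x ↦ a + d x` in every long window of exponents, and long chains of primes
-/

set_option autoImplicit false

namespace Pool.Agent.W25.IT

open Finset Filter Pool.Agent.H732R3.BigQ Pool.Agent.W59.GB Pool.Agent.H947R3.GM

/-- the set of good exponents -/
def GoodExp (a d : ℤ) : Set ℕ := {j | GoodPair (itc a d j) (d ^ j)}

/-- five classes of exponents, admissible at the primes not dividing `N` -/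
theorem five_exp (a d : ℤ) (hd : 1 ≤ d) (hg : Int.gcd a d = 1) (h2 : 2 ∣ a * d) (ha : a ≠ 0)
    (N : ℕ) (hN : ∀ p : ℕ, p.Prime → p ∣ N → (p : ℤ) ∣ d - 1 → (p : ℤ) ∣ a) :
    ∃ K : ℕ, 1 ≤ K ∧ ∀ H : Fin 5 → Fin K → ℕ, AdmN N H →
      ∃ g g' i i', g ≠ g' ∧ H g i < H g' i' ∧ H g' i' - H g i ∈ GoodExp a d := by
  classical
  obtain ⟨K, hK, hQ⟩ := quarterB 5
  refine ⟨K, hK, ?_⟩
  rintro H ⟨hinj, hadm⟩
  obtain ⟨S, c, hS, hBig⟩ := hQ (fun g i => d ^ H g i) (fun g i => itc a d (H g i))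
    (fun g i => by positivity)
    (by
      rintro x y h
      simp only [Prod.mk.injEq] at h
      exact hinj (itc_inj hd ha h.1 h.2))
    (by
      intro p hp
      obtain ⟨n, hn⟩ := iter_admissible (ι := Fin 5 × Fin K) hg h2 (fun x => H x.1 x.2) hp (by
        intro _ hp1 hpa
        obtain ⟨n, hn⟩ := hadm p hp (fun hpN => hpa (hN p hp hpN hp1))
        have hp0 : (0 : ℤ) < p := by exact_mod_cast hp.pos
        refine iter_miss _ hp hp1 hpa ((-n) % p).toNat ?_
        rintro ⟨g, i⟩ h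
        apply hn g i
        have h3 : ((H g i : ℕ) : ℤ) ≡ (((-n) % p).toNat : ℤ) [ZMOD p] := by
          exact_mod_cast (Int.natCast_modEq_iff).2 h
        rw [Int.toNat_of_nonneg (Int.emod_nonneg _ hp0.ne')] at h3
        have h4 : ((H g i : ℕ) : ℤ) ≡ -n [ZMOD p] := h3.trans (Int.mod_modEq _ _)
        have h5 := (Int.modEq_iff_dvd.1 h4.symm)
        have h6 : ((H g i : ℕ) : ℤ) - -n = n + H g i := by ring
        rwa [h6] at h5)
      exact ⟨n, fun g i => hn (g, i)⟩)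
  have hS2 : 1 < S.card := by omega
  obtain ⟨g, hg', g', hg'', hne⟩ := Finset.one_lt_card.1 hS2
  have hHne : H g (c g) ≠ H g' (c g') := by
    intro h
    exact hne (congrArg Prod.fst (hinj (a₁ := (g, c g)) (a₂ := (g', c g')) h))
  have key : ∀ g ∈ S, ∀ g' ∈ S, H g (c g) < H g' (c g') →
      H g' (c g') - H g (c g) ∈ GoodExp a d := by
    intro g hgS g' hgS' hlt
    have h3 : Big {n : ℕ | (∃ p : ℕ, p.Prime ∧ d ^ H g (c g) * n + itc a d (H g (c g)) = p) ∧
        (∃ q : ℕ, q.Prime ∧ d ^ H g' (c g') * n + itc a d (H g' (c g')) = q)} := by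
      refine hBig.mono ?_
      intro n hn
      have conv : ∀ g ∈ S, ∃ p : ℕ, p.Prime ∧ d ^ H g (c g) * n + itc a d (H g (c g)) = p := by
        intro g hg
        obtain ⟨h4, h5⟩ := hn g hg
        refine ⟨(d ^ H g (c g) * n + itc a d (H g (c g))).toNat, ?_, ?_⟩
        · rw [Nat.prime_iff_prime_int, Int.toNat_of_nonneg h4.le]; exact h5
        · exact (Int.toNat_of_nonneg h4.le).symm
      exact ⟨conv g hgS, conv g' hgS'⟩
    have h4 := pair_of_forms (R := d ^ (H g' (c g') - H g (c g))) (by positivity) (by positivity)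
      (by rw [← pow_add, Nat.sub_add_cancel hlt.le]) h3
    rwa [itc_sub a d hlt.le] at h4
  rcases lt_or_gt_of_ne hHne with h | h
  · exact ⟨g, g', c g, c g', hne, h, key g hg' g' hg'' h⟩
  · exact ⟨g', g, c g', c g, hne.symm, h, key g' hg'' g hg' h⟩

open Classical in
/-- the proportion of good exponents in every long window -/
theorem windows (a d : ℤ) (hd : 1 ≤ d) (hg : Int.gcd a d = 1) (h2 : 2 ∣ a * d) (ha : a ≠ 0)
    (ε : ℝ) (hε : 0 < ε) : ∃ L : ℕ, ∀ M : ℕ, L ≤ M → ∀ u : ℕ,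
      ((if 3 ∣ d - 1 ∧ ¬ 3 ∣ a then (1 / 6 : ℝ) else if 5 ∣ d - 1 ∧ ¬ 5 ∣ a then 1 / 5 else 1 / 4) - ε) *
        (M : ℝ) ≤ (win (GoodExp a d) u M : ℝ) := by
  classical
  have h2safe : (2 : ℤ) ∣ d - 1 → (2 : ℤ) ∣ a := by
    intro h3
    rcases Int.prime_two.dvd_or_dvd h2 with h4 | h4
    · exact h4
    · omega
  have hpr : ∀ N : ℕ, N ∣ 30 → ∀ p : ℕ, p.Prime → p ∣ N → p = 2 ∨ (p = 3 ∧ 3 ∣ N) ∨ (p = 5 ∧ 5 ∣ N) := by
    intro N hN p hp hpN
    have h3 : p ∣ 30 := hpN.trans hN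
    have h4 : p ∈ Nat.primeFactors 30 := Nat.mem_primeFactors.2 ⟨hp, h3, by norm_num⟩
    have h5 : Nat.primeFactors 30 = {2, 3, 5} := by decide +kernel
    rw [h5] at h4
    simp only [mem_insert, mem_singleton] at h4
    rcases h4 with rfl | rfl | rfl
    · left; rfl
    · right; left; exact ⟨rfl, hpN⟩
    · right; right; exact ⟨rfl, hpN⟩
  by_cases h3 : (3 : ℤ) ∣ d - 1 ∧ ¬ (3 : ℤ) ∣ a
  · rw [if_pos h3]
    refine sixth_mult (N := 2) (dvd_refl 2) (five_exp a d hd hg h2 ha 2 ?_) hε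
    intro p hp hpN hp1
    rcases hpr 2 (by norm_num) p hp hpN with rfl | ⟨-, h4⟩ | ⟨-, h4⟩
    · exact h2safe hp1
    · norm_num at h4
    · norm_num at h4
  · rw [if_neg h3]
    have h3safe : (3 : ℤ) ∣ d - 1 → (3 : ℤ) ∣ a := fun h => by
      by_contra h4
      exact h3 ⟨h, h4⟩
    by_cases h5 : (5 : ℤ) ∣ d - 1 ∧ ¬ (5 : ℤ) ∣ a
    · rw [if_pos h5]
      refine fifth_mult (N := 6) (dvd_refl 6) (five_exp a d hd hg h2 ha 6 ?_) hε
      intro p hp hpN hp1
      rcases hpr 6 (by norm_num) p hp hpN with rfl | ⟨rfl, -⟩ | ⟨-, h4⟩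
      · exact h2safe hp1
      · exact h3safe hp1
      · norm_num at h4
    · rw [if_neg h5]
      refine quarter_mult (N := 30) (dvd_refl 30) (five_exp a d hd hg h2 ha 30 ?_) hε
      intro p hp hpN hp1
      rcases hpr 30 (by norm_num) p hp hpN with rfl | ⟨rfl, -⟩ | ⟨rfl, -⟩
      · exact h2safe hp1
      · exact h3safe hp1
      · by_contra h4
        exact h5 ⟨hp1, h4⟩

/-- long chains of primes with bounded exponents -/
theorem chains (m : ℕ) : ∃ J : ℕ, ∀ a d : ℤ, 1 ≤ d → Int.gcd a d = 1 → 2 ∣ a * d → a ≠ 0 →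
    ∃ T : Finset ℕ, T.card = m ∧ (∀ j ∈ T, 1 ≤ j ∧ j ≤ J) ∧
      Big {q : ℕ | q.Prime ∧ ∀ j ∈ T, ∃ p : ℕ, p.Prime ∧ itc a d j + q * d ^ j = p} := by
  classical
  obtain ⟨K, hK, hQ⟩ := quarterB (4 * (m + 1))
  obtain ⟨Q, hQd⟩ : ∃ Q : ℕ, Q = (4 * (m + 1) * K).factorial := ⟨_, rfl⟩
  have hQ0 : 0 < Q := by rw [hQd]; exact Nat.factorial_pos _
  refine ⟨Q * (4 * (m + 1) * K), fun a d hd hg h2 ha => ?_⟩
  obtain ⟨H, hH⟩ : ∃ H : Fin (4 * (m + 1)) × Fin K → ℕ,
      H = fun x => Q * ((finProdFinEquiv x : Fin (4 * (m + 1) * K)) : ℕ) := ⟨_, rfl⟩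
  have hHinj : Function.Injective H := by
    intro x y h
    rw [hH] at h
    simp only at h
    have h3 := Nat.eq_of_mul_eq_mul_left hQ0 h
    exact finProdFinEquiv.injective (Fin.ext h3)
  have hHle : ∀ x, H x ≤ Q * (4 * (m + 1) * K) := by
    intro x
    rw [hH]
    exact Nat.mul_le_mul_left _ (finProdFinEquiv x).2.le
  obtain ⟨S, c, hS, hBig⟩ := hQ (fun g i => d ^ H (g, i)) (fun g i => itc a d (H (g, i)))
    (fun g i => by positivity)
    (by
      rintro x y h
      simp only [Prod.mk.injEq] at h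
      exact hHinj (itc_inj hd ha h.1 h.2))
    (by
      intro p hp
      obtain ⟨n, hn⟩ := iter_admissible (ι := Fin (4 * (m + 1)) × Fin K) hg h2 H hp (by
        intro _ hp1 hpa
        by_cases hpT : p ≤ 4 * (m + 1) * K
        · refine iter_miss _ hp hp1 hpa 1 ?_
          intro x h
          have h3 : p ∣ Q := by rw [hQd]; exact Nat.dvd_factorial hp.pos hpT
          have h4 : H x ≡ 0 [MOD p] := by
            rw [hH]
            exact (Nat.modEq_zero_iff_dvd).2 (Dvd.dvd.mul_right h3 _)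
          have h5 : (1 : ℕ) ≡ 0 [MOD p] := h.symm.trans h4
          have h6 := (Nat.modEq_zero_iff_dvd).1 h5
          exact hp.one_lt.ne' (Nat.dvd_one.1 h6)
        · obtain ⟨n, hn⟩ := Pool.Agent.H361R2.exists_avoid' (m := 4 * (m + 1) * K) hp (by omega)
            (fun t => d ^ H (finProdFinEquiv.symm t)) (fun t => itc a d (H (finProdFinEquiv.symm t)))
            (by
              rintro t ⟨h3, h4⟩
              exact itc_coprime hg hp h3 h4)
          refine ⟨n, fun x => ?_⟩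
          have := hn (finProdFinEquiv x)
          rwa [Equiv.symm_apply_apply] at this)
      exact ⟨n, fun g i => hn (g, i)⟩)
  obtain ⟨S', hS'S, hS'⟩ := exists_subset_card_eq (show m + 1 ≤ S.card by omega)
  have hne : S'.Nonempty := by rw [← card_pos]; omega
  obtain ⟨g0, hg0, hmin⟩ := exists_min_image S' (fun g => H (g, c g)) hne
  have hinjS : Function.Injective (fun g => H (g, c g)) := fun g g' h =>
    congrArg Prod.fst (hHinj h)
  refine ⟨(S'.erase g0).image (fun g => H (g, c g) - H (g0, c g0)), ?_, ?_, ?_⟩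
  · rw [card_image_of_injOn, card_erase_of_mem hg0, hS']
    · rfl
    · intro g hg g' hg' h
      have h3 := hmin g (mem_of_mem_erase hg)
      have h4 := hmin g' (mem_of_mem_erase hg')
      simp only at h h3 h4
      exact hinjS (show H (g, c g) = H (g', c g') by omega)
  · intro j hj
    obtain ⟨g, hg, rfl⟩ := mem_image.1 hj
    have h3 : H (g0, c g0) ≤ H (g, c g) := hmin g (mem_of_mem_erase hg)
    have h4 : H (g, c g) ≠ H (g0, c g0) := fun h => (ne_of_mem_erase hg) (hinjS h)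
    have h5 := hHle (g, c g)
    constructor <;> omega
  · have hDn : (((d ^ H (g0, c g0)).toNat : ℕ) : ℤ) = d ^ H (g0, c g0) :=
      Int.toNat_of_nonneg (by positivity)
    have hDpos : 1 ≤ (d ^ H (g0, c g0)).toNat := by
      have : (1 : ℤ) ≤ d ^ H (g0, c g0) := one_le_pow₀ hd
      omega
    refine Big.affine hBig (d ^ H (g0, c g0)).toNat (itc a d (H (g0, c g0))) hDpos
      (fun n => (d ^ H (g0, c g0) * n + itc a d (H (g0, c g0))).toNat) ?_ ?_
    · intro n hn
      rw [hDn]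
      exact Int.toNat_of_nonneg (hn g0 (hS'S hg0)).1.le
    · intro n hn
      obtain ⟨h3, h4⟩ := hn g0 (hS'S hg0)
      have h5 : (((d ^ H (g0, c g0) * n + itc a d (H (g0, c g0))).toNat : ℕ) : ℤ) =
          d ^ H (g0, c g0) * n + itc a d (H (g0, c g0)) := Int.toNat_of_nonneg h3.le
      refine ⟨by rw [Nat.prime_iff_prime_int, h5]; exact h4, ?_⟩
      intro j hj
      obtain ⟨g, hg, rfl⟩ := mem_image.1 hj
      have h6 := hmin g (mem_of_mem_erase hg)
      obtain ⟨h7, h8⟩ := hn g (hS'S (mem_of_mem_erase hg))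
      refine ⟨(d ^ H (g, c g) * n + itc a d (H (g, c g))).toNat, ?_, ?_⟩
      · rw [Nat.prime_iff_prime_int, Int.toNat_of_nonneg h7.le]; exact h8
      · rw [Int.toNat_of_nonneg h7.le, h5]
        have h9 := itc_sub a d h6
        have h10 : d ^ H (g, c g) = d ^ (H (g, c g) - H (g0, c g0)) * d ^ H (g0, c g0) := by
          rw [← pow_add, Nat.sub_add_cancel h6]
        rw [h10]
        linear_combination -h9

end Pool.Agent.W25.IT
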